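import Pool.Agent.H670GS.Stm

set_option autoImplicit false

open scoped Matrix.Norms.L2Operator Matrix
open Finset

namespace Pool.Agent.H172R2.GS

theorem CNT_geom (q : ℕ) (z : ℝ) (hz : 0 < z) (hz2 : z ≤ 1 / 2) :
    ∑ t ∈ range (q + 1), z ^ t ≤ Real.exp (2 * z) := by
  have h1 : (∑ t ∈ range (q + 1), z ^ t) * (1 - z) = 1 - z ^ (q + 1) := geom_sum_mul_neg z (q + 1)
  have h2 : (0 : ℝ) < z ^ (q + 1) := by positivity
  have h3 : ∑ t ∈ range (q + 1), z ^ t ≤ 1 + 2 * z := by
    have h4 : (∑ t ∈ range (q + 1), z ^ t) * (1 - z) ≤ (1 + 2 * z) * (1 - z) := by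
      rw [h1]
      nlinarith
    exact le_of_mul_le_mul_right h4 (by linarith)
  have h5 := Real.add_one_le_exp (2 * z)
  linarith

theorem t_CNT : S_CNT := by
  intro ι _ _ q z hz hz2
  calc ((arrays ι q).card : ℝ) * z ^ q = ∑ _r ∈ arrays ι q, z ^ q := by
        rw [Finset.sum_const, nsmul_eq_mul]
    _ ≤ ∑ r ∈ arrays ι q, ∏ i, z ^ (r i) := by
        apply Finset.sum_le_sum
        intro r hr
        rw [Finset.prod_pow_eq_pow_sum]
        unfold arrays at hr
        exact pow_le_pow_of_le_one hz.le (by linarith) (Finset.mem_filter.1 hr).2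
    _ ≤ ∑ r ∈ Fintype.piFinset (fun _ : ι => range (q + 1)), ∏ i, z ^ (r i) := by
        apply Finset.sum_le_sum_of_subset_of_nonneg
        · exact Finset.filter_subset _ _
        · intro r _ _
          positivity
    _ = ∏ _i : ι, ∑ t ∈ range (q + 1), z ^ t := by
        rw [Finset.prod_univ_sum]
    _ ≤ ∏ _i : ι, Real.exp (2 * z) := by
        apply Finset.prod_le_prod
        · intro i _
          positivity
        · intro i _
          exact CNT_geom q z hz hz2
    _ = Real.exp (2 * z * Fintype.card ι) := by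
        rw [Finset.prod_const, Finset.card_univ, ← Real.exp_nat_mul]
        congr 1
        ring

end Pool.Agent.H172R2.GS
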