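import Pool.Agent.H670GS.Stm

/-!
# Group Spencer: the cover (COV)
-/

set_option autoImplicit false

open scoped Matrix.Norms.L2Operator Matrix
open Finset

namespace Pool.Agent.H172R2.GS

open scoped ComplexOrder in
theorem COV_t4_nonneg {d : ℕ} (Y : Matrix (Fin d) (Fin d) ℂ) : 0 ≤ t4 Y := by
  unfold t4
  have h := (Matrix.posSemidef_conjTranspose_mul_self (Yᴴ * Y)).trace_nonneg
  have h2 : (Yᴴ * Y)ᴴ = Yᴴ * Y := by
    rw [Matrix.conjTranspose_mul, Matrix.conjTranspose_conjTranspose]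
  rw [h2] at h
  exact (Complex.le_def.1 h).1

theorem COV_geom (K : ℕ) : ∑ k ∈ range K, (1 : ℝ) / 2 ^ k ≤ 2 := by
  have h : ∀ K : ℕ, ∑ k ∈ range K, (1 : ℝ) / 2 ^ k = 2 - 2 / 2 ^ K := by
    intro K
    induction K with
    | zero => norm_num
    | succ K ih =>
      rw [sum_range_succ, ih, pow_succ]
      field_simp
      ring
  rw [h]
  have : (0 : ℝ) < 2 / 2 ^ K := by positivity
  linarith

theorem COV_sums {M : Type} [AddCommMonoid M] (F : ℕ → Finset M) (c : ℕ → ℝ)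
    (hc : ∀ k, ((F k).card : ℝ) ≤ Real.exp (c k)) (K : ℕ) :
    ∃ E : Finset M, (E.card : ℝ) ≤ Real.exp (∑ k ∈ range K, c k) ∧
      ∀ Z : ℕ → M, (∀ k, k < K → Z k ∈ F k) → ∑ k ∈ range K, Z k ∈ E := by
  classical
  induction K with
  | zero =>
    refine ⟨{0}, by simp, fun Z _ => by simp⟩
  | succ K ih =>
    obtain ⟨E, hE, hZ⟩ := ih
    refine ⟨Finset.image₂ (fun a b => a + b) E (F K), ?_, ?_⟩
    · have h1 : ((Finset.image₂ (fun a b => a + b) E (F K)).card : ℝ) ≤
          (E.card : ℝ) * ((F K).card : ℝ) := by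
        exact_mod_cast Finset.card_image₂_le (fun a b => a + b) E (F K)
      rw [sum_range_succ, Real.exp_add]
      refine h1.trans (mul_le_mul hE (hc K) (by positivity) (Real.exp_pos _).le)
    · intro Z hZ'
      rw [sum_range_succ]
      exact Finset.mem_image₂_of_mem (hZ Z fun k hk => hZ' k (by omega)) (hZ' K (by omega))

theorem t_COV (h1 : S_DEC) (h2 : S_LVK) : S_COV := by
  classical
  intro ι _ _ d m n hd hsum hm hmn
  have hn : 0 < n := lt_of_lt_of_le hm hmn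
  have hs : 0 < sc m n := by
    unfold sc
    have h3 : (0 : ℝ) < (n : ℝ) := by exact_mod_cast hn
    have h4 : (0 : ℝ) < (m : ℝ) := by exact_mod_cast hm
    positivity
  set s : ℝ := sc m n with hsdef
  have hs4 : 0 < s ^ 4 := by positivity
  obtain ⟨K, hK⟩ := pow_unbounded_of_one_lt (6 * (m : ℝ) ^ 2 * n / s ^ 4) (by norm_num : (1 : ℝ) < 16)
  have hK' : 6 * (m : ℝ) ^ 2 * n < 16 ^ K * s ^ 4 := (div_lt_iff₀ hs4).1 hK
  choose F hFc hF using fun k => h2 ι d m n k hd (by exact_mod_cast hsum) hm hmn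
  obtain ⟨E, hE, hEm⟩ := COV_sums F (fun k => (m : ℝ) / (100 * 2 ^ k)) hFc K
  refine ⟨E, ?_, ?_⟩
  · refine hE.trans (Real.exp_le_exp.2 ?_)
    have h3 : ∑ k ∈ range K, (m : ℝ) / (100 * 2 ^ k) = (m : ℝ) / 100 * ∑ k ∈ range K, (1 : ℝ) / 2 ^ k := by
      rw [mul_sum]
      refine sum_congr rfl fun k _ => ?_
      field_simp
    rw [h3]
    have h4 := COV_geom K
    have h5 : (0 : ℝ) ≤ (m : ℝ) / 100 := by positivity
    nlinarith
  · intro Y hY
    have ht : ∀ i, t4 (Y i) ≤ (d i : ℝ) * t4 (Y i) := by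
      intro i
      have h3 : (1 : ℝ) ≤ (d i : ℝ) := by exact_mod_cast hd i
      nlinarith [COV_t4_nonneg (Y i)]
    have ht' : ∀ i, t4 (Y i) < 16 ^ K * s ^ 4 := by
      intro i
      have h3 : (d i : ℝ) * t4 (Y i) ≤ ∑ i, (d i : ℝ) * t4 (Y i) :=
        single_le_sum (f := fun i => (d i : ℝ) * t4 (Y i))
          (fun i _ => mul_nonneg (Nat.cast_nonneg _) (COV_t4_nonneg (Y i))) (mem_univ i)
      exact lt_of_le_of_lt ((ht i).trans (h3.trans hY)) hK'
    choose r W V hYn hWV hr using fun i => h1 (d i) (Y i) s K hs (ht' i)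
    have hex : ∀ k, ∃ Z : (i : ι) → Matrix (Fin (d i)) (Fin (d i)) ℂ, k < K →
        (Z ∈ F k ∧ ∀ i, ‖W i k * (V i k)ᴴ - Z i‖ ≤ s / 2 ^ k) := by
      intro k
      by_cases hk : k < K
      · obtain ⟨Z, hZ1, hZ2⟩ := hF k (fun i => r i k) (fun i => W i k) (fun i => V i k) (by
          rw [sum_mul]
          refine le_trans (sum_le_sum fun i _ => ?_) hY
          rw [mul_assoc]
          refine mul_le_mul_of_nonneg_left ?_ (Nat.cast_nonneg _)
          refine le_trans ?_ (hr i)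
          exact single_le_sum (f := fun k => (r i k : ℝ) * (16 ^ k * s ^ 4))
            (fun k _ => by positivity) (mem_range.2 hk))
          (fun i => (hWV i k).1) (fun i => (hWV i k).2)
        exact ⟨Z, fun _ => ⟨hZ1, hZ2⟩⟩
      · exact ⟨0, fun h => absurd h hk⟩
    choose Z hZ using hex
    refine ⟨∑ k ∈ range K, Z k, hEm Z fun k hk => (hZ k hk).1, ?_⟩
    intro i
    have h3 : Y i - (∑ k ∈ range K, Z k) i =
        (Y i - ∑ k ∈ range K, W i k * (V i k)ᴴ) + ∑ k ∈ range K, (W i k * (V i k)ᴴ - Z k i) := by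
      rw [sum_sub_distrib, Finset.sum_apply]
      abel
    rw [h3]
    refine (norm_add_le _ _).trans ?_
    have h4 : ‖∑ k ∈ range K, (W i k * (V i k)ᴴ - Z k i)‖ ≤ 2 * s := by
      refine (norm_sum_le _ _).trans ?_
      have h5 : ∑ k ∈ range K, ‖W i k * (V i k)ᴴ - Z k i‖ ≤ ∑ k ∈ range K, s / 2 ^ k :=
        sum_le_sum fun k hk => (hZ k (mem_range.1 hk)).2 i
      refine h5.trans ?_
      have h6 : ∑ k ∈ range K, s / 2 ^ k = s * ∑ k ∈ range K, (1 : ℝ) / 2 ^ k := by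
        rw [mul_sum]
        refine sum_congr rfl fun k _ => ?_
        field_simp
      rw [h6]
      nlinarith [COV_geom K]
    linarith [hYn i]

end Pool.Agent.H172R2.GS
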