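import Pool.Agent.H670GS.Stm

/-! # DEC (helper192) -/

set_option autoImplicit false

open scoped Matrix.Norms.L2Operator Matrix
open Finset

namespace Pool.Agent.H172R2.GS

open scoped ComplexOrder in
theorem DEC_spec (d : ℕ) (Y : Matrix (Fin d) (Fin d) ℂ) :
    ∃ (U : Matrix (Fin d) (Fin d) ℂ) (lam : Fin d → ℝ), Uᴴ * U = 1 ∧ U * Uᴴ = 1 ∧
      (∀ j, 0 ≤ lam j) ∧ Uᴴ * (Yᴴ * Y) * U = Matrix.diagonal (fun j => (lam j : ℂ)) := by
  have hps := Matrix.posSemidef_conjTranspose_mul_self Y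
  have hH := hps.isHermitian
  refine ⟨hH.eigenvectorUnitary, hH.eigenvalues, ?_, ?_, fun j => hps.eigenvalues_nonneg j, ?_⟩
  · have := Unitary.coe_star_mul_self hH.eigenvectorUnitary
    simpa [Matrix.star_eq_conjTranspose] using this
  · have := Unitary.coe_mul_star_self hH.eigenvectorUnitary
    simpa [Matrix.star_eq_conjTranspose] using this
  · have := hH.conjStarAlgAut_star_eigenvectorUnitary
    rw [Unitary.conjStarAlgAut_star_apply] at this
    rw [← Matrix.star_eq_conjTranspose]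
    rw [this]
    rfl

theorem DEC_t4 {d : ℕ} (Y U : Matrix (Fin d) (Fin d) ℂ) (lam : Fin d → ℝ) (h2 : U * Uᴴ = 1)
    (h : Uᴴ * (Yᴴ * Y) * U = Matrix.diagonal (fun j => (lam j : ℂ))) :
    t4 Y = ∑ j, lam j ^ 2 := by
  have h3 : Uᴴ * ((Yᴴ * Y) * (Yᴴ * Y)) * U = Matrix.diagonal (fun j => ((lam j ^ 2 : ℝ) : ℂ)) := by
    calc Uᴴ * ((Yᴴ * Y) * (Yᴴ * Y)) * U = Uᴴ * (Yᴴ * Y) * (1 : Matrix (Fin d) (Fin d) ℂ) * (Yᴴ * Y) * U := by
          rw [Matrix.mul_one]; simp only [Matrix.mul_assoc]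
      _ = (Uᴴ * (Yᴴ * Y) * U) * (Uᴴ * (Yᴴ * Y) * U) := by
          rw [← h2]; simp only [Matrix.mul_assoc]
      _ = _ := by
          rw [h, Matrix.diagonal_mul_diagonal]
          congr 1
          funext j
          push_cast
          ring
  have h4 : Matrix.trace (Uᴴ * ((Yᴴ * Y) * (Yᴴ * Y)) * U) = Matrix.trace ((Yᴴ * Y) * (Yᴴ * Y)) := by
    rw [Matrix.trace_mul_comm, ← Matrix.mul_assoc, h2, Matrix.one_mul]
  unfold t4
  rw [← h4, h3, Matrix.trace_diagonal, ← Complex.ofReal_sum, Complex.ofReal_re]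

theorem DEC_norm_le {m n : ℕ} (M : Matrix (Fin m) (Fin n) ℂ) (c : ℝ) (hc : 0 ≤ c)
    (h : ‖Mᴴ * M‖ ≤ c ^ 2) : ‖M‖ ≤ c := by
  rw [Matrix.l2_opNorm_conjTranspose_mul_self] at h
  nlinarith [norm_nonneg M]

theorem DEC_diag_le {n : ℕ} (v : Fin n → ℂ) (c : ℝ) (hc : 0 ≤ c) (h : ∀ j, ‖v j‖ ≤ c) :
    ‖(Matrix.diagonal v : Matrix (Fin n) (Fin n) ℂ)‖ ≤ c := by
  rw [Matrix.l2_opNorm_diagonal]
  exact (pi_norm_le_iff_of_nonneg hc).mpr h

theorem DEC_sub {d r : ℕ} (U M : Matrix (Fin d) (Fin d) ℂ) (e : Fin r → Fin d) :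
    (U.submatrix id e)ᴴ * M * (U.submatrix id e) = (Uᴴ * M * U).submatrix e e := by
  rw [Matrix.conjTranspose_submatrix]
  rw [Matrix.submatrix_mul _ _ e id e Function.bijective_id,
    Matrix.submatrix_mul _ _ e id id Function.bijective_id]
  rfl

theorem DEC_outer {d : ℕ} (U : Matrix (Fin d) (Fin d) ℂ) (A : Finset (Fin d)) :
    (U.submatrix id (fun i => ((A.equivFin.symm i : A) : Fin d)))
      * (U.submatrix id (fun i => ((A.equivFin.symm i : A) : Fin d)))ᴴ
      = U * Matrix.diagonal (fun j => if j ∈ A then (1 : ℂ) else 0) * Uᴴ := by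
  ext a b
  rw [Matrix.mul_apply, Matrix.mul_apply]
  simp only [Matrix.conjTranspose_apply, Matrix.submatrix_apply, id, Matrix.mul_diagonal]
  have h1 : ∀ j : Fin d, (U a j * if j ∈ A then (1 : ℂ) else 0) * star (U b j)
      = if j ∈ A then U a j * star (U b j) else 0 := by
    intro j; split_ifs <;> simp
  rw [Finset.sum_congr rfl (fun j _ => h1 j), Finset.sum_ite_mem, Finset.univ_inter]
  rw [← Finset.sum_coe_sort A (fun j => U a j * star (U b j))]
  exact (A.equivFin.symm).sum_comp (fun j : A => U a j * star (U b j))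

theorem DEC_exists (x s : ℝ) : ∀ K : ℕ, s ^ 2 < x → x ≤ 4 ^ K * s ^ 2 →
    ∃ k < K, 4 ^ k * s ^ 2 < x ∧ x ≤ 4 ^ (k + 1) * s ^ 2
  | 0, h1, h2 => by
    exfalso
    simp at h2
    linarith
  | K + 1, h1, h2 => by
    by_cases h : x ≤ 4 ^ K * s ^ 2
    · obtain ⟨k, hk, h3⟩ := DEC_exists x s K h1 h
      exact ⟨k, by omega, h3⟩
    · exact ⟨K, by omega, not_le.mp h, h2⟩

theorem t_DEC : S_DEC := by
  intro d Y s K hs hY
  obtain ⟨U, lam, hU1, hU2, hlam, hdiag⟩ := DEC_spec d Y
  have ht4 := DEC_t4 Y U lam hU2 hdiag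
  have hs2 : 0 < s ^ 2 := by positivity
  -- the level sets
  set A : ℕ → Finset (Fin d) := fun k =>
    univ.filter (fun j => 4 ^ k * s ^ 2 < lam j ∧ lam j ≤ 4 ^ (k + 1) * s ^ 2) with hA
  have hAmem : ∀ k j, j ∈ A k ↔ 4 ^ k * s ^ 2 < lam j ∧ lam j ≤ 4 ^ (k + 1) * s ^ 2 := by
    intro k j; simp [hA]
  set e : (k : ℕ) → Fin (A k).card → Fin d := fun k i => (((A k).equivFin.symm i : A k) : Fin d)
    with he
  have hemem : ∀ k i, e k i ∈ A k := fun k i => ((A k).equivFin.symm i).2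
  have heinj : ∀ k, Function.Injective (e k) := fun k =>
    Subtype.val_injective.comp (A k).equivFin.symm.injective
  set V : (k : ℕ) → Matrix (Fin d) (Fin (A k).card) ℂ := fun k => U.submatrix id (e k) with hV
  -- upper bound for the eigenvalues
  have hup : ∀ j, lam j < 4 ^ K * s ^ 2 := by
    intro j
    have h1 : lam j ^ 2 ≤ t4 Y := by
      rw [ht4]
      exact Finset.single_le_sum (f := fun j => lam j ^ 2) (fun i _ => sq_nonneg _) (mem_univ j)
    have h2 : lam j ^ 2 < (4 ^ K * s ^ 2) ^ 2 := by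
      calc lam j ^ 2 ≤ t4 Y := h1
        _ < 16 ^ K * s ^ 4 := hY
        _ = (4 ^ K * s ^ 2) ^ 2 := by
            rw [mul_pow, ← pow_mul, ← pow_mul, mul_comm K 2, pow_mul]
            norm_num
    exact lt_of_pow_lt_pow_left₀ 2 (by positivity) h2
  -- uniqueness of the level
  have huniq : ∀ j k k', j ∈ A k → j ∈ A k' → k = k' := by
    have key : ∀ j k k', k < k' → j ∈ A k → j ∈ A k' → False := by
      intro j k k' hlt h1 h2
      rw [hAmem] at h1 h2
      have h3 : (4 : ℝ) ^ (k + 1) ≤ 4 ^ k' := pow_le_pow_right₀ (by norm_num) hlt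
      have h4 : (4 : ℝ) ^ (k + 1) * s ^ 2 ≤ 4 ^ k' * s ^ 2 := mul_le_mul_of_nonneg_right h3 hs2.le
      linarith [h1.2, h2.1]
    intro j k k' h1 h2
    rcases lt_trichotomy k k' with h | h | h
    · exact (key j k k' h h1 h2).elim
    · exact h
    · exact (key j k' k h h2 h1).elim
  have hlow : ∀ j k, j ∈ A k → s ^ 2 < lam j := by
    intro j k h
    rw [hAmem] at h
    have : (1 : ℝ) ≤ 4 ^ k := one_le_pow₀ (by norm_num)
    nlinarith [h.1]
  have hcount : ∀ j, (∑ k ∈ range K, if j ∈ A k then (1 : ℂ) else 0) = if s ^ 2 < lam j then 1 else 0 := by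
    intro j
    by_cases h : s ^ 2 < lam j
    · rw [if_pos h]
      obtain ⟨k, hk, hk2⟩ := DEC_exists (lam j) s K h (hup j).le
      have hjk : j ∈ A k := (hAmem k j).mpr hk2
      rw [Finset.sum_eq_single k]
      · rw [if_pos hjk]
      · intro k' _ hne
        rw [if_neg (fun h' => hne (huniq j k' k h' hjk))]
      · intro h'; exact absurd (Finset.mem_range.mpr hk) h'
    · rw [if_neg h]
      refine Finset.sum_eq_zero (fun k _ => ?_)
      rw [if_neg (fun h' => h (hlow j k h'))]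
  refine ⟨fun k => (A k).card, fun k => Y * V k, V, ?_, ?_, ?_⟩
  · -- the remainder
    have h1 : ∀ k, V k * (V k)ᴴ = U * Matrix.diagonal (fun j => if j ∈ A k then (1 : ℂ) else 0) * Uᴴ :=
      fun k => DEC_outer U (A k)
    have h2 : ∑ k ∈ range K, V k * (V k)ᴴ
        = U * Matrix.diagonal (fun j => if s ^ 2 < lam j then (1 : ℂ) else 0) * Uᴴ := by
      rw [Finset.sum_congr rfl (fun k _ => h1 k), ← Finset.sum_mul, ← Finset.mul_sum]
      congr 2
      ext a b
      rw [Matrix.sum_apply]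
      by_cases hab : a = b
      · subst hab
        simp only [Matrix.diagonal_apply_eq]
        exact hcount a
      · simp [Matrix.diagonal_apply_ne _ hab]
    have h3 : Y - ∑ k ∈ range K, (Y * V k) * (V k)ᴴ
        = (Y * U * Matrix.diagonal (fun j => if s ^ 2 < lam j then (0 : ℂ) else 1)) * Uᴴ := by
      have e1 : ∑ k ∈ range K, (Y * V k) * (V k)ᴴ = Y * ∑ k ∈ range K, V k * (V k)ᴴ := by
        rw [Finset.mul_sum]
        exact Finset.sum_congr rfl (fun k _ => Matrix.mul_assoc _ _ _)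
      have e2 : (Matrix.diagonal (fun j => if s ^ 2 < lam j then (0 : ℂ) else 1) : Matrix (Fin d) (Fin d) ℂ)
          = 1 - Matrix.diagonal (fun j => if s ^ 2 < lam j then (1 : ℂ) else 0) := by
        rw [← Matrix.diagonal_one, Matrix.diagonal_sub]
        congr 1
        funext j
        split_ifs <;> simp
      rw [e1, h2, e2]
      rw [Matrix.mul_sub, Matrix.mul_one, Matrix.sub_mul, Matrix.mul_assoc Y U Uᴴ, hU2, Matrix.mul_one]
      simp only [Matrix.mul_assoc]
    rw [h3]
    have hUn : ‖Uᴴ‖ ≤ 1 := by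
      refine DEC_norm_le _ 1 zero_le_one ?_
      rw [Matrix.conjTranspose_conjTranspose, hU2, ← Matrix.diagonal_one]
      refine DEC_diag_le _ _ (by norm_num) (fun j => by simp)
    have hM : ‖Y * U * Matrix.diagonal (fun j => if s ^ 2 < lam j then (0 : ℂ) else 1)‖ ≤ s := by
      refine DEC_norm_le _ s hs.le ?_
      have e3 : (Y * U * Matrix.diagonal (fun j => if s ^ 2 < lam j then (0 : ℂ) else 1))ᴴ *
          (Y * U * Matrix.diagonal (fun j => if s ^ 2 < lam j then (0 : ℂ) else 1))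
          = Matrix.diagonal (fun j => if s ^ 2 < lam j then (0 : ℂ) else (lam j : ℂ)) := by
        rw [Matrix.conjTranspose_mul, Matrix.conjTranspose_mul, Matrix.diagonal_conjTranspose]
        have e4 : (Matrix.diagonal (star fun j => if s ^ 2 < lam j then (0 : ℂ) else 1)) * (Uᴴ * Yᴴ) *
            (Y * U * Matrix.diagonal (fun j => if s ^ 2 < lam j then (0 : ℂ) else 1))
            = (Matrix.diagonal (star fun j => if s ^ 2 < lam j then (0 : ℂ) else 1)) *
              (Uᴴ * (Yᴴ * Y) * U) *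
              Matrix.diagonal (fun j => if s ^ 2 < lam j then (0 : ℂ) else 1) := by
          simp only [Matrix.mul_assoc]
        rw [e4, hdiag, Matrix.diagonal_mul_diagonal, Matrix.diagonal_mul_diagonal]
        congr 1
        funext j
        simp only [Pi.star_apply]
        split_ifs <;> simp
      rw [e3]
      refine DEC_diag_le _ _ hs2.le (fun j => ?_)
      split_ifs with h
      · simpa using hs2.le
      · rw [Complex.norm_real, Real.norm_of_nonneg (hlam j)]
        exact not_lt.mp h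
    calc ‖(Y * U * Matrix.diagonal (fun j => if s ^ 2 < lam j then (0 : ℂ) else 1)) * Uᴴ‖
        ≤ ‖Y * U * Matrix.diagonal (fun j => if s ^ 2 < lam j then (0 : ℂ) else 1)‖ * ‖Uᴴ‖ :=
          Matrix.l2_opNorm_mul _ _
      _ ≤ s * 1 := mul_le_mul hM hUn (norm_nonneg _) hs.le
      _ = s := mul_one s
  · intro k
    constructor
    · refine DEC_norm_le _ _ (by positivity) ?_
      have e1 : (Y * V k)ᴴ * (Y * V k) = Matrix.diagonal (fun i => (lam (e k i) : ℂ)) := by
        rw [Matrix.conjTranspose_mul]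
        have e2 : (V k)ᴴ * Yᴴ * (Y * V k) = (V k)ᴴ * (Yᴴ * Y) * V k := by
          simp only [Matrix.mul_assoc]
        rw [e2, hV]
        simp only
        rw [DEC_sub, hdiag, Matrix.submatrix_diagonal _ _ (heinj k)]
        rfl
      rw [e1]
      refine DEC_diag_le _ _ (by positivity) (fun i => ?_)
      rw [Complex.norm_real, Real.norm_of_nonneg (hlam _)]
      have := ((hAmem k _).mp (hemem k i)).2
      calc lam (e k i) ≤ 4 ^ (k + 1) * s ^ 2 := this
        _ = (2 ^ (k + 1) * s) ^ 2 := by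
            rw [mul_pow, ← pow_mul, mul_comm (k + 1) 2, pow_mul]
            norm_num
    · refine DEC_norm_le _ _ zero_le_one ?_
      have e1 : (V k)ᴴ * V k = 1 := by
        have e2 := DEC_sub U 1 (e k)
        rw [Matrix.mul_one, Matrix.mul_one, hU1, Matrix.submatrix_one _ (heinj k)] at e2
        exact e2
      rw [e1, ← Matrix.diagonal_one]
      exact DEC_diag_le _ _ (by norm_num) (fun j => by simp)
  · -- ranks
    rw [ht4]
    have h1 : ∀ k, ((A k).card : ℝ) * (16 ^ k * s ^ 4) ≤ ∑ j, if j ∈ A k then lam j ^ 2 else 0 := by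
      intro k
      rw [Finset.sum_ite_mem, Finset.univ_inter, ← nsmul_eq_mul, ← Finset.sum_const]
      refine Finset.sum_le_sum (fun j hj => ?_)
      have h2 := ((hAmem k j).mp hj).1
      calc (16 : ℝ) ^ k * s ^ 4 = (4 ^ k * s ^ 2) ^ 2 := by
            rw [mul_pow, ← pow_mul, ← pow_mul, mul_comm k 2, pow_mul]
            norm_num
        _ ≤ lam j ^ 2 := pow_le_pow_left₀ (by positivity) h2.le 2
    calc ∑ k ∈ range K, ((A k).card : ℝ) * (16 ^ k * s ^ 4)
        ≤ ∑ k ∈ range K, ∑ j, (if j ∈ A k then lam j ^ 2 else 0) :=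
          Finset.sum_le_sum (fun k _ => h1 k)
      _ = ∑ j, ∑ k ∈ range K, (if j ∈ A k then lam j ^ 2 else 0) := Finset.sum_comm
      _ ≤ ∑ j, lam j ^ 2 := by
          refine Finset.sum_le_sum (fun j _ => ?_)
          by_cases h : ∃ k ∈ range K, j ∈ A k
          · obtain ⟨k, hk, hjk⟩ := h
            rw [Finset.sum_eq_single k]
            · rw [if_pos hjk]
            · intro k' _ hne
              rw [if_neg (fun h' => hne (huniq j k' k h' hjk))]
            · intro h'; exact absurd hk h'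
          · rw [Finset.sum_eq_zero (fun k hk => if_neg (fun h' => h ⟨k, hk, h'⟩))]
            positivity

end Pool.Agent.H172R2.GS
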