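import Pool.Agent.H670GS.Stm

/-!
# FIN: from the full colouring theorem to Group Spencer
-/

set_option autoImplicit false

open scoped Matrix.Norms.L2Operator Matrix
open Finset

namespace Pool.Agent.H172R2.GS

/-- a matrix with `Uᴴ U = 1` is a contraction -/
theorem norm_le_one_of_isometry {d : ℕ} (U : Matrix (Fin d) (Fin d) ℂ) (h : Uᴴ * U = 1) :
    ‖U‖ ≤ 1 := by
  have h1 : ‖(1 : Matrix (Fin d) (Fin d) ℂ)‖ ≤ 1 := by
    have h2 := Matrix.l2_opNorm_conjTranspose_mul_self (1 : Matrix (Fin d) (Fin d) ℂ)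
    rw [Matrix.conjTranspose_one, one_mul] at h2
    have h3 := norm_nonneg (1 : Matrix (Fin d) (Fin d) ℂ)
    nlinarith
  have h2 := Matrix.l2_opNorm_conjTranspose_mul_self U
  rw [h] at h2
  have h3 := norm_nonneg U
  nlinarith

theorem t_FIN (h1 : S_MAIN) (h2 : S_REP1) (h3 : S_REP2) : S_FIN := by
  obtain ⟨C, hC, hmain⟩ := h1
  refine ⟨C, fun G _ _ _ c hc => ?_⟩
  obtain ⟨k, d, Ψ, hd, hs, hU⟩ := h2 G
  obtain ⟨ε, hε, hb⟩ := hmain (Fin k) d (Fintype.card G) hd hs.le G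
    (fun g i => ((c g : ℝ) : ℂ) • Ψ (MonoidAlgebra.single g 1) i) le_rfl (by
      intro g i
      rw [norm_smul, Complex.norm_real, Real.norm_eq_abs]
      exact mul_le_one₀ (hc g) (norm_nonneg _) (norm_le_one_of_isometry _ (hU g i)))
  refine ⟨ε, hε, ?_⟩
  obtain ⟨i, hi⟩ := h3 G k d Ψ hU (fun g => ε g * c g)
  intro v
  refine (hi v).trans (mul_le_mul_of_nonneg_right ?_ (Finset.sum_nonneg fun a _ => sq_nonneg _))
  have hn : (0 : ℝ) < (Fintype.card G : ℝ) := by exact_mod_cast Fintype.card_pos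
  have hpow : ((Fintype.card G : ℝ)) ^ (3 / 8 : ℝ) * ((Fintype.card G : ℝ)) ^ (1 / 8 : ℝ) =
      √(Fintype.card G : ℝ) := by
    rw [← Real.rpow_add hn, Real.sqrt_eq_rpow]
    norm_num
  have hb' := hb i
  rw [mul_assoc, hpow] at hb'
  have he : ∑ g : G, ((ε g : ℝ) : ℂ) • (((c g : ℝ) : ℂ) • Ψ (MonoidAlgebra.single g 1) i) =
      ∑ g : G, ((ε g * c g : ℝ) : ℂ) • Ψ (MonoidAlgebra.single g 1) i := by
    refine Finset.sum_congr rfl fun g _ => ?_
    rw [smul_smul, Complex.ofReal_mul]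
  rw [he] at hb'
  calc ‖∑ g : G, ((ε g * c g : ℝ) : ℂ) • Ψ (MonoidAlgebra.single g 1) i‖ ^ 2
      ≤ (C * √(Fintype.card G : ℝ)) ^ 2 := pow_le_pow_left₀ (norm_nonneg _) hb' 2
    _ = C ^ 2 * (Fintype.card G : ℝ) := by rw [mul_pow, Real.sq_sqrt hn.le]

end Pool.Agent.H172R2.GS
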