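import Pool.Agent.H670GS.Stm

/-!
# Group Spencer: cover of the parts of level `k` of all blocks (LEV)
-/

set_option autoImplicit false

open scoped Matrix.Norms.L2Operator Matrix
open Finset

namespace Pool.Agent.H172R2.GS

theorem t_LEV (h1 : S_LR) (h2 : S_CNT) : S_LEV := by
  classical
  intro ι _ _ d q k z s hz hz2 hs
  have h : ∀ d r : ℕ, ∃ F : Finset (Matrix (Fin d) (Fin d) ℂ),
      F.card ≤ 5 ^ (2 * (d * r) * (4 * k + 5)) ∧
      ∀ W V : Matrix (Fin d) (Fin r) ℂ, ‖W‖ ≤ 2 ^ (k + 1) * s → ‖V‖ ≤ 1 →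
        ∃ Z ∈ F, ‖W * Vᴴ - Z‖ ≤ s / 2 ^ k := fun d r => h1 d r k s hs
  choose N hNc hN using h
  let R : Finset (ι → ℕ) := (arrays ι q).filter fun r => ∑ i, d i * r i ≤ q
  let F : Finset ((i : ι) → Matrix (Fin (d i)) (Fin (d i)) ℂ) :=
    R.biUnion fun r => Fintype.piFinset fun i => N (d i) (r i)
  have hF : F.card ≤ (arrays ι q).card * 5 ^ (2 * (4 * k + 5) * q) := by
    calc F.card ≤ ∑ r ∈ R, (Fintype.piFinset fun i => N (d i) (r i)).card := card_biUnion_le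
      _ ≤ ∑ r ∈ R, 5 ^ (2 * (4 * k + 5) * q) := by
        refine sum_le_sum fun r hr => ?_
        have hr2 : ∑ i, d i * r i ≤ q := (mem_filter.1 hr).2
        rw [Fintype.card_piFinset]
        calc ∏ i, (N (d i) (r i)).card ≤ ∏ i, 5 ^ (2 * (d i * r i) * (4 * k + 5)) :=
              prod_le_prod' fun i _ => hNc (d i) (r i)
          _ = 5 ^ (∑ i, 2 * (d i * r i) * (4 * k + 5)) := prod_pow_eq_pow_sum _ _ _
          _ = 5 ^ (2 * (4 * k + 5) * ∑ i, d i * r i) := by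
            congr 1
            rw [mul_sum]
            refine sum_congr rfl fun i _ => ?_
            ring
          _ ≤ 5 ^ (2 * (4 * k + 5) * q) :=
            Nat.pow_le_pow_right (by norm_num) (Nat.mul_le_mul_left _ hr2)
      _ = R.card * 5 ^ (2 * (4 * k + 5) * q) := by rw [sum_const, smul_eq_mul]
      _ ≤ (arrays ι q).card * 5 ^ (2 * (4 * k + 5) * q) :=
        Nat.mul_le_mul_right _ (card_filter_le _ _)
  refine ⟨F, ?_, ?_⟩
  · have hF' : (F.card : ℝ) ≤ ((arrays ι q).card : ℝ) * 5 ^ (2 * (4 * k + 5) * q) := by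
      exact_mod_cast hF
    have hc := h2 ι q z hz hz2
    have hzq : 0 ≤ z ^ q := (pow_pos hz q).le
    calc (F.card : ℝ) * z ^ q
        ≤ (((arrays ι q).card : ℝ) * 5 ^ (2 * (4 * k + 5) * q)) * z ^ q :=
          mul_le_mul_of_nonneg_right hF' hzq
      _ = (((arrays ι q).card : ℝ) * z ^ q) * 5 ^ (2 * (4 * k + 5) * q) := by ring
      _ ≤ Real.exp (2 * z * Fintype.card ι) * 5 ^ (2 * (4 * k + 5) * q) :=
          mul_le_mul_of_nonneg_right hc (by positivity)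
  · intro r W V hr hdr hW hV
    have hex : ∀ i, ∃ Z ∈ N (d i) (r i), ‖W i * (V i)ᴴ - Z‖ ≤ s / 2 ^ k := fun i =>
      hN (d i) (r i) (W i) (V i) (hW i) (hV i)
    choose Z hZ hZ2 using hex
    refine ⟨Z, ?_, hZ2⟩
    refine mem_biUnion.2 ⟨r, ?_, Fintype.mem_piFinset.2 hZ⟩
    refine mem_filter.2 ⟨?_, hdr⟩
    refine mem_filter.2 ⟨Fintype.mem_piFinset.2 fun i => mem_range.2 ?_, hr⟩
    have : r i ≤ ∑ j, r j := single_le_sum (f := r) (fun _ _ => Nat.zero_le _) (mem_univ i)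
    omega

end Pool.Agent.H172R2.GS
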