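import Pool.Agent.H670GS.Stm

set_option autoImplicit false

open scoped Matrix.Norms.L2Operator Matrix
open Finset

namespace Pool.Agent.H172R2.GS

theorem LR_finrank (d r : ℕ) :
    @Module.finrank ℝ (Matrix (Fin d) (Fin r) ℂ) _ _
      (NormedSpace.complexToReal (E := Matrix (Fin d) (Fin r) ℂ)).toModule = 2 * (d * r) := by
  have h1 := finrank_real_of_complex (Matrix (Fin d) (Fin r) ℂ)
  have h2 : Module.finrank ℂ (Matrix (Fin d) (Fin r) ℂ) = d * r := by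
    rw [Module.finrank_matrix, Fintype.card_fin, Fintype.card_fin, Module.finrank_self, mul_one]
  rw [h2] at h1
  exact h1

theorem LR_net (h : S_NET) (d r j : ℕ) (κ : ℝ) (hκ : 0 < κ) :
    ∃ F : Finset (Matrix (Fin d) (Fin r) ℂ), F.card ≤ 5 ^ (2 * (d * r) * j) ∧
      ∀ x : Matrix (Fin d) (Fin r) ℂ, ‖x‖ ≤ 2 ^ j * κ → ∃ y ∈ F, ‖x - y‖ ≤ κ := by
  letI i1 : NormedSpace ℝ (Matrix (Fin d) (Fin r) ℂ) := NormedSpace.complexToReal
  haveI : FiniteDimensional ℝ (Matrix (Fin d) (Fin r) ℂ) := FiniteDimensional.complexToReal _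
  obtain ⟨F, hF, hx⟩ := h (Matrix (Fin d) (Fin r) ℂ) j κ hκ
  refine ⟨F, ?_, hx⟩
  have := LR_finrank d r
  rw [this] at hF
  exact hF

theorem LR_bound (k : ℕ) (s a b c e : ℝ) (hs : 0 < s) (ha : a ≤ 2 ^ (k + 1) * s)
    (hb : b ≤ (1 / 2) ^ (2 * k + 2)) (hc : c ≤ s * (1 / 2) ^ (k + 2))
    (he : e ≤ 1 + (1 / 2) ^ (2 * k + 2)) (hb0 : 0 ≤ b) (hc0 : 0 ≤ c) (he0 : 0 ≤ e) :
    a * b + c * e ≤ s / 2 ^ k := by
  have hp : (0 : ℝ) < 2 ^ k := by positivity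
  have h1 : a * b ≤ (2 ^ (k + 1) * s) * (1 / 2) ^ (2 * k + 2) :=
    (mul_le_mul_of_nonneg_right ha hb0).trans (mul_le_mul_of_nonneg_left hb (by positivity))
  have h2 : c * e ≤ (s * (1 / 2) ^ (k + 2)) * (1 + (1 / 2) ^ (2 * k + 2)) :=
    (mul_le_mul_of_nonneg_right hc he0).trans (mul_le_mul_of_nonneg_left he (by positivity))
  have e1 : (2 ^ (k + 1) * s) * (1 / 2 : ℝ) ^ (2 * k + 2) = s / 2 ^ k * (1 / 2) := by
    have : (1 / 2 : ℝ) ^ (2 * k + 2) = 1 / (2 ^ k * 2 ^ k * 4) := by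
      rw [one_div, inv_pow, pow_add, two_mul, pow_add]
      norm_num
    rw [this, pow_succ]
    field_simp
    norm_num
  have e2 : s * (1 / 2 : ℝ) ^ (k + 2) = s / 2 ^ k * (1 / 4) := by
    rw [one_div, inv_pow, pow_add]
    field_simp
    norm_num
  have e3 : (1 / 2 : ℝ) ^ (2 * k + 2) ≤ 1 / 4 := by
    calc (1 / 2 : ℝ) ^ (2 * k + 2) ≤ (1 / 2 : ℝ) ^ 2 :=
          pow_le_pow_of_le_one (by norm_num) (by norm_num) (by omega)
      _ = 1 / 4 := by norm_num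
  rw [e1] at h1
  rw [e2] at h2
  have hq : 0 < s / 2 ^ k := by positivity
  have h3 : s / 2 ^ k * (1 / 4) * (1 + (1 / 2 : ℝ) ^ (2 * k + 2)) ≤ s / 2 ^ k * (1 / 4) * (5 / 4) :=
    mul_le_mul_of_nonneg_left (by linarith) (by positivity)
  nlinarith

theorem t_LR (h : S_NET) : S_LR := by
  classical
  intro d r k s hs
  obtain ⟨FV, hFV, hV⟩ := LR_net h d r (2 * k + 2) ((1 / 2) ^ (2 * k + 2)) (by positivity)
  obtain ⟨FW, hFW, hW⟩ := LR_net h d r (2 * k + 3) (s * (1 / 2) ^ (k + 2)) (by positivity)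
  refine ⟨Finset.image₂ (fun W V => W * Vᴴ) FW FV, ?_, ?_⟩
  · refine (Finset.card_image₂_le _ _ _).trans ((Nat.mul_le_mul hFW hFV).trans ?_)
    rw [← pow_add]
    refine le_of_eq ?_
    congr 1
    ring
  · intro W V hWn hVn
    obtain ⟨V', hV', hVd⟩ := hV V (by
      rw [← mul_pow]
      norm_num
      exact hVn)
    obtain ⟨W', hW', hWd⟩ := hW W (by
      refine hWn.trans (le_of_eq ?_)
      have : (2 : ℝ) ^ (2 * k + 3) * (1 / 2) ^ (k + 2) = 2 ^ (k + 1) := by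
        have e : 2 * k + 3 = (k + 1) + (k + 2) := by ring
        rw [e, pow_add, mul_assoc, ← mul_pow]
        norm_num
      rw [← this]
      ring)
    refine ⟨W' * V'ᴴ, Finset.mem_image₂.2 ⟨W', hW', V', hV', rfl⟩, ?_⟩
    have hdec : W * Vᴴ - W' * V'ᴴ = W * (V - V')ᴴ + (W - W') * V'ᴴ := by
      rw [Matrix.conjTranspose_sub, Matrix.mul_sub, Matrix.sub_mul]
      abel
    rw [hdec]
    have h1 : ‖W * (V - V')ᴴ‖ ≤ ‖W‖ * ‖V - V'‖ := by
      refine (Matrix.l2_opNorm_mul _ _).trans ?_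
      rw [Matrix.l2_opNorm_conjTranspose]
    have h2 : ‖(W - W') * V'ᴴ‖ ≤ ‖W - W'‖ * ‖V'‖ := by
      refine (Matrix.l2_opNorm_mul _ _).trans ?_
      rw [Matrix.l2_opNorm_conjTranspose]
    have h3 : ‖V'‖ ≤ 1 + (1 / 2 : ℝ) ^ (2 * k + 2) := by
      have : V' = V - (V - V') := by abel
      rw [this]
      exact (norm_sub_le _ _).trans (add_le_add hVn hVd)
    exact (norm_add_le _ _).trans ((add_le_add h1 h2).trans
      (LR_bound k s _ _ _ _ hs hWn hVd hWd h3 (norm_nonneg _) (norm_nonneg _) (norm_nonneg _)))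

end Pool.Agent.H172R2.GS
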