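import Pool.Agent.H670GS.Stm

/-! # Group Spencer: the cover of level `k` with the size needed (volunteer helper26) -/

set_option autoImplicit false

open scoped Matrix.Norms.L2Operator Matrix
open Finset

namespace Pool.Agent.H172R2.GS

theorem LVK_sc_pos {m n : ℕ} (hm : 0 < m) (hn : 0 < n) : 0 < sc m n := by
  unfold sc
  have h1 : (0 : ℝ) < n := by exact_mod_cast hn
  have h2 : (0 : ℝ) < m := by exact_mod_cast hm
  positivity

theorem t_LVK (h1 : S_LEV) (h2 : S_NUM) : S_LVK := by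
  intro ι _ _ d m n k hd hsum hm hmn
  have hn : 0 < n := lt_of_lt_of_le hm hmn
  have hs : 0 < sc m n := LVK_sc_pos hm hn
  have hD : (0 : ℝ) < 16 ^ k * (sc m n) ^ 4 := by positivity
  set q : ℕ := ⌊6 * (m : ℝ) ^ 2 * n / (16 ^ k * (sc m n) ^ 4)⌋₊ with hq
  have hqle : (q : ℝ) * (16 ^ k * (sc m n) ^ 4) ≤ 6 * (m : ℝ) ^ 2 * n := by
    have := Nat.floor_le (a := 6 * (m : ℝ) ^ 2 * n / (16 ^ k * (sc m n) ^ 4)) (by positivity)
    rwa [le_div_iff₀ hD] at this
  obtain ⟨z, hz0, hz1, hz⟩ := h2 m n q k hm hmn hqle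
  obtain ⟨F, hF, hcov⟩ := h1 ι d q k z (sc m n) hz0 hz1 hs
  have hcard : (Fintype.card ι : ℝ) ≤ n := by
    have e : Fintype.card ι ≤ ∑ i, d i ^ 2 := by
      rw [← Finset.card_univ, Finset.card_eq_sum_ones]
      refine Finset.sum_le_sum fun i _ => ?_
      have := hd i
      exact Nat.one_le_pow _ _ this
    exact_mod_cast e.trans hsum
  refine ⟨F, ?_, ?_⟩
  · have hzq : (0 : ℝ) < z ^ q := by positivity
    have h3 : Real.exp (2 * z * Fintype.card ι) ≤ Real.exp (2 * z * n) := by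
      apply Real.exp_le_exp.mpr
      exact mul_le_mul_of_nonneg_left hcard (by positivity)
    have h4 : (F.card : ℝ) * z ^ q ≤ z ^ q * Real.exp ((m : ℝ) / (100 * 2 ^ k)) :=
      hF.trans ((mul_le_mul_of_nonneg_right h3 (by positivity)).trans hz)
    rw [mul_comm] at h4
    exact le_of_mul_le_mul_left h4 hzq
  · intro r W V hr hW hV
    have h3 : ∑ i, d i * r i ≤ q := by
      apply Nat.le_floor
      rw [le_div_iff₀ hD]
      push_cast
      exact hr
    have h4 : ∑ i, r i ≤ q := by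
      refine le_trans (Finset.sum_le_sum fun i _ => ?_) h3
      exact Nat.le_mul_of_pos_left _ (hd i)
    exact hcov r W V h4 h3 hW hV

end Pool.Agent.H172R2.GS
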