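import Pool.Agent.H670GS.Stm

/-! Task M0 of project H670-GS (helper744): the fourth moment of a Rademacher sum. -/

set_option autoImplicit false

open Finset

namespace Pool.Agent.H172R2.GS

theorem M0_step (n : ℕ) (f : ℝ → ℝ) :
    ∑ ε : Fin (n + 1) → Bool, f (∑ g, sg (ε g)) =
      ∑ ε : Fin n → Bool, (f (1 + ∑ g, sg (ε g)) + f (-1 + ∑ g, sg (ε g))) := by
  rw [← (Fin.consEquiv (fun _ : Fin (n + 1) => Bool)).sum_comp, Fintype.sum_prod_type,
    Fintype.sum_bool, ← sum_add_distrib]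
  refine sum_congr rfl fun ε _ => ?_
  simp [Fin.consEquiv, Fin.sum_univ_succ, sg]

theorem M0_fin (n : ℕ) :
    (∑ ε : Fin n → Bool, (∑ g, sg (ε g)) ^ 2 = 2 ^ n * (n : ℝ)) ∧
      ∑ ε : Fin n → Bool, (∑ g, sg (ε g)) ^ 4 = 2 ^ n * (3 * (n : ℝ) ^ 2 - 2 * n) := by
  induction n with
  | zero => simp
  | succ n ih =>
    obtain ⟨h2, h4⟩ := ih
    have h0 : ∑ _ε : Fin n → Bool, (1 : ℝ) = 2 ^ n := by simp
    constructor
    · rw [M0_step n (fun x => x ^ 2)]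
      have e : ∀ ε : Fin n → Bool, ((1 + ∑ g, sg (ε g)) ^ 2 + (-1 + ∑ g, sg (ε g)) ^ 2 : ℝ) =
          2 * (∑ g, sg (ε g)) ^ 2 + 2 * 1 := fun ε => by ring
      simp only [e]
      rw [sum_add_distrib, ← mul_sum, ← mul_sum, h2, h0]
      push_cast
      ring
    · rw [M0_step n (fun x => x ^ 4)]
      have e : ∀ ε : Fin n → Bool, ((1 + ∑ g, sg (ε g)) ^ 4 + (-1 + ∑ g, sg (ε g)) ^ 4 : ℝ) =
          2 * (∑ g, sg (ε g)) ^ 4 + 12 * (∑ g, sg (ε g)) ^ 2 + 2 * 1 := fun ε => by ring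
      simp only [e]
      rw [sum_add_distrib, sum_add_distrib, ← mul_sum, ← mul_sum, ← mul_sum, h2, h4, h0]
      push_cast
      ring

theorem t_M0 : S_M0 := by
  intro J _ _
  have e := Fintype.equivFin J
  have h : ∑ ε : J → Bool, (∑ g, sg (ε g)) ^ 4 =
      ∑ ε : Fin (Fintype.card J) → Bool, (∑ g, sg (ε g)) ^ 4 := by
    rw [← (Equiv.arrowCongr e (Equiv.refl Bool)).sum_comp]
    refine sum_congr rfl fun ε _ => ?_
    rw [← e.symm.sum_comp]
    rfl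
  rw [h, (M0_fin _).2]
  have hn : (0 : ℝ) ≤ (Fintype.card J : ℝ) := Nat.cast_nonneg _
  have : (0 : ℝ) ≤ 2 ^ Fintype.card J := by positivity
  nlinarith

end Pool.Agent.H172R2.GS
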