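import Pool.Agent.H670GS.Stm

set_option autoImplicit false

open scoped Matrix.Norms.L2Operator Matrix
open Finset

namespace Pool.Agent.H172R2.GS

lemma m4_entry {d : ℕ} (P : Matrix (Fin d) (Fin d) ℂ) (i : Fin d) : ‖P i i‖ ≤ ‖P‖ := by
  have h1 := Matrix.l2_opNorm_mulVec P (EuclideanSpace.single i (1 : ℂ))
  rw [PiLp.norm_single, norm_one, mul_one] at h1
  refine le_trans ?_ h1
  have h2 := PiLp.norm_apply_le ((EuclideanSpace.equiv (Fin d) ℂ).symm
    (P *ᵥ (EuclideanSpace.single i (1 : ℂ)).ofLp)) i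
  refine le_trans (le_of_eq ?_) h2
  congr 1
  show P i i = (P *ᵥ (EuclideanSpace.single i (1 : ℂ)).ofLp) i
  simp [Matrix.mulVec, dotProduct]

lemma m4_trace {d : ℕ} (P : Matrix (Fin d) (Fin d) ℂ) (hP : ‖P‖ ≤ 1) :
    (Matrix.trace P).re ≤ d := by
  calc (Matrix.trace P).re ≤ ‖Matrix.trace P‖ := Complex.re_le_norm _
    _ ≤ ∑ i, ‖P i i‖ := by
        unfold Matrix.trace
        exact norm_sum_le _ _
    _ ≤ ∑ _i : Fin d, (1 : ℝ) := by
        apply Finset.sum_le_sum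
        intro i _
        exact (m4_entry P i).trans hP
    _ = d := by simp

lemma m4_norm {d : ℕ} (P Q R S : Matrix (Fin d) (Fin d) ℂ) (hP : ‖P‖ ≤ 1) (hQ : ‖Q‖ ≤ 1)
    (hR : ‖R‖ ≤ 1) (hS : ‖S‖ ≤ 1) : ‖(Pᴴ * Q) * (Rᴴ * S)‖ ≤ 1 := by
  have h1 : ‖Pᴴ * Q‖ ≤ 1 := by
    refine (Matrix.l2_opNorm_mul _ _).trans ?_
    rw [Matrix.l2_opNorm_conjTranspose]
    exact mul_le_one₀ hP (norm_nonneg _) hQ
  have h2 : ‖Rᴴ * S‖ ≤ 1 := by
    refine (Matrix.l2_opNorm_mul _ _).trans ?_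
    rw [Matrix.l2_opNorm_conjTranspose]
    exact mul_le_one₀ hR (norm_nonneg _) hS
  exact (Matrix.l2_opNorm_mul _ _).trans (mul_le_one₀ h1 (norm_nonneg _) h2)

variable {J : Type} [Fintype J]

lemma m4_expand2 {d : ℕ} (A : J → Matrix (Fin d) (Fin d) ℂ) (ε : J → Bool) :
    (XX A ε)ᴴ * XX A ε =
      ∑ q : J × J, ((sg (ε q.1) * sg (ε q.2) : ℝ) : ℂ) • ((A q.1)ᴴ * A q.2) := by
  unfold XX
  rw [Matrix.conjTranspose_sum, Finset.sum_mul_sum, Fintype.sum_prod_type]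
  refine Finset.sum_congr rfl fun a _ => Finset.sum_congr rfl fun b _ => ?_
  rw [Matrix.conjTranspose_smul, Matrix.smul_mul, Matrix.mul_smul, smul_smul]
  simp

/-- the sign product of a quadruple -/
def m4_u (ε : J → Bool) (p : (J × J) × (J × J)) : ℝ :=
  (sg (ε p.1.1) * sg (ε p.1.2)) * (sg (ε p.2.1) * sg (ε p.2.2))

/-- the trace of a quadruple -/
noncomputable def m4_T {d : ℕ} (A : J → Matrix (Fin d) (Fin d) ℂ) (p : (J × J) × (J × J)) : ℝ :=
  (Matrix.trace (((A p.1.1)ᴴ * A p.1.2) * ((A p.2.1)ᴴ * A p.2.2))).re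

lemma m4_expand4 {d : ℕ} (A : J → Matrix (Fin d) (Fin d) ℂ) (ε : J → Bool) :
    t4 (XX A ε) = ∑ p : (J × J) × (J × J), m4_u ε p * m4_T A p := by
  unfold t4
  rw [m4_expand2, Finset.sum_mul_sum,
    Fintype.sum_prod_type (fun p : (J × J) × (J × J) => m4_u ε p * m4_T A p),
    Matrix.trace_sum, Complex.re_sum]
  refine Finset.sum_congr rfl fun q _ => ?_
  rw [Matrix.trace_sum, Complex.re_sum]
  refine Finset.sum_congr rfl fun q' _ => ?_
  rw [Matrix.smul_mul, Matrix.mul_smul, smul_smul, Matrix.trace_smul, smul_eq_mul,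
    ← Complex.ofReal_mul, Complex.re_ofReal_mul]
  rfl

lemma m4_sum (ε : J → Bool) :
    (∑ g, sg (ε g)) ^ 4 = ∑ p : (J × J) × (J × J), m4_u ε p := by
  have h1 : (∑ g, sg (ε g)) * (∑ g, sg (ε g)) = ∑ q : J × J, sg (ε q.1) * sg (ε q.2) := by
    rw [Finset.sum_mul_sum, Fintype.sum_prod_type]
  have h2 : (∑ g, sg (ε g)) ^ 4 =
      ((∑ g, sg (ε g)) * (∑ g, sg (ε g))) * ((∑ g, sg (ε g)) * (∑ g, sg (ε g))) := by ring
  rw [h2, h1, Finset.sum_mul_sum]
  exact (Fintype.sum_prod_type (fun p : (J × J) × (J × J) => m4_u ε p)).symm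

variable [DecidableEq J]

lemma m4_single (ε : J → Bool) (a : J) :
    sg (ε a) = ∏ g, (sg (ε g)) ^ (if a = g then 1 else 0) := by
  rw [Finset.prod_pow_boole]
  simp

lemma m4_nonneg (p : (J × J) × (J × J)) : 0 ≤ ∑ ε : J → Bool, m4_u ε p := by
  obtain ⟨⟨a, b⟩, ⟨c, e⟩⟩ := p
  set m : J → ℕ := fun g => (if a = g then 1 else 0) + (if b = g then 1 else 0) +
    ((if c = g then 1 else 0) + (if e = g then 1 else 0)) with hm
  have h1 : ∀ ε : J → Bool, m4_u ε ((a, b), (c, e)) = ∏ g, (sg (ε g)) ^ (m g) := by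
    intro ε
    unfold m4_u
    simp only
    rw [m4_single ε a, m4_single ε b, m4_single ε c, m4_single ε e, ← Finset.prod_mul_distrib,
      ← Finset.prod_mul_distrib, ← Finset.prod_mul_distrib]
    refine Finset.prod_congr rfl fun g _ => ?_
    rw [hm]
    simp only [pow_add]
  simp_rw [h1]
  have h2 := Finset.prod_univ_sum (fun _ : J => (Finset.univ : Finset Bool))
    (fun g b => (sg b) ^ (m g))
  rw [Fintype.piFinset_univ] at h2
  rw [← h2]
  apply Finset.prod_nonneg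
  intro g _
  rw [Fintype.sum_bool]
  unfold sg
  simp only [if_true, Bool.false_eq_true, if_false, one_pow]
  rcases neg_one_pow_eq_or ℝ (m g) with h | h <;> rw [h] <;> norm_num

theorem t_M4 (h : S_M0) : S_M4 := by
  intro J _ _ d A hA
  have h0 := h J
  calc ∑ ε : J → Bool, t4 (XX A ε)
      = ∑ ε : J → Bool, ∑ p : (J × J) × (J × J), m4_u ε p * m4_T A p :=
        Finset.sum_congr rfl fun ε _ => m4_expand4 A ε
    _ = ∑ p : (J × J) × (J × J), (∑ ε : J → Bool, m4_u ε p) * m4_T A p := by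
        rw [Finset.sum_comm]
        refine Finset.sum_congr rfl fun p _ => ?_
        rw [Finset.sum_mul]
    _ ≤ ∑ p : (J × J) × (J × J), (∑ ε : J → Bool, m4_u ε p) * d := by
        apply Finset.sum_le_sum
        intro p _
        apply mul_le_mul_of_nonneg_left _ (m4_nonneg p)
        exact m4_trace _ (m4_norm _ _ _ _ (hA _) (hA _) (hA _) (hA _))
    _ = (∑ ε : J → Bool, (∑ g, sg (ε g)) ^ 4) * d := by
        rw [← Finset.sum_mul, Finset.sum_comm]
        congr 1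
        exact Finset.sum_congr rfl fun ε _ => (m4_sum ε).symm
    _ ≤ (2 ^ (Fintype.card J) * (3 * (Fintype.card J : ℝ) ^ 2)) * d :=
        mul_le_mul_of_nonneg_right h0 (Nat.cast_nonneg d)
    _ = 2 ^ (Fintype.card J) * (3 * (Fintype.card J : ℝ) ^ 2 * d) := by ring

end Pool.Agent.H172R2.GS
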