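import Pool.Agent.H670GS.Stm

/-!
# MAIN (helper853): from partial colourings to a full colouring
-/

set_option autoImplicit false

open scoped Matrix.Norms.L2Operator Matrix
open Finset

namespace Pool.Agent.H172R2.GS

namespace MAINaux

lemma num1 : (9 / 10 : ℝ) ^ (1 / 8 : ℝ) ≤ 1979 / 2000 := by
  have h : (9 / 10 : ℝ) ≤ (1979 / 2000 : ℝ) ^ 8 := by norm_num
  calc (9 / 10 : ℝ) ^ (1 / 8 : ℝ) ≤ ((1979 / 2000 : ℝ) ^ 8) ^ (1 / 8 : ℝ) :=
        Real.rpow_le_rpow (by norm_num) h (by norm_num)
    _ = 1979 / 2000 := by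
        rw [← Real.rpow_natCast, ← Real.rpow_mul (by norm_num)]
        norm_num

end MAINaux

open MAINaux in
theorem t_MAIN (h : S_PC) : S_MAIN := by
  refine ⟨4000, by norm_num, ?_⟩
  intro ι _ _ d n hd hn
  have key : ∀ (m : ℕ) (J : Type) [Fintype J] [DecidableEq J]
      (A : J → (i : ι) → Matrix (Fin (d i)) (Fin (d i)) ℂ), Fintype.card J = m →
      Fintype.card J ≤ n → (∀ g i, ‖A g i‖ ≤ 1) →
      ∃ ε : J → ℝ, (∀ g, ε g = 1 ∨ ε g = -1) ∧
        ∀ i, ‖∑ g, ((ε g : ℝ) : ℂ) • A g i‖ ≤
          4000 * (n : ℝ) ^ (3 / 8 : ℝ) * (Fintype.card J : ℝ) ^ (1 / 8 : ℝ) := by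
    intro m
    induction m using Nat.strong_induction_on with
    | _ m ih =>
      intro J _ _ A hm hJn hA
      by_cases h4 : Fintype.card J < 4
      · refine ⟨fun _ => 1, fun _ => Or.inl rfl, fun i => ?_⟩
        have h1 : ‖∑ g, (((1 : ℝ) : ℝ) : ℂ) • A g i‖ ≤ (Fintype.card J : ℝ) := by
          refine (norm_sum_le _ _).trans ?_
          calc ∑ g, ‖((1 : ℝ) : ℂ) • A g i‖ ≤ ∑ g : J, (1 : ℝ) :=
                Finset.sum_le_sum fun g _ => by
                  rw [Complex.ofReal_one, one_smul]
                  exact hA g i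
            _ = Fintype.card J := by simp
        refine h1.trans ?_
        rcases Nat.eq_zero_or_pos (Fintype.card J) with h0 | h0
        · rw [h0, Nat.cast_zero]
          positivity
        · have hc1 : (1 : ℝ) ≤ Fintype.card J := by exact_mod_cast h0
          have hn1 : (1 : ℝ) ≤ n := hc1.trans (by exact_mod_cast hJn)
          have e1 : (1 : ℝ) ≤ (n : ℝ) ^ (3 / 8 : ℝ) := Real.one_le_rpow hn1 (by norm_num)
          have e2 : (1 : ℝ) ≤ (Fintype.card J : ℝ) ^ (1 / 8 : ℝ) :=
            Real.one_le_rpow hc1 (by norm_num)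
          have e3 : (Fintype.card J : ℝ) ≤ 4 := by exact_mod_cast h4.le
          have e4 : (1 : ℝ) ≤ (n : ℝ) ^ (3 / 8 : ℝ) * (Fintype.card J : ℝ) ^ (1 / 8 : ℝ) :=
            one_le_mul_of_one_le_of_one_le e1 e2
          rw [mul_assoc]
          linarith
      · push Not at h4
        obtain ⟨x, hx, hxc, hxn⟩ := h ι d n hd hn J A h4 hJn hA
        -- the remaining elements
        have hcard : Fintype.card {g : J // x g = 0} + (univ.filter fun g => x g ≠ 0).card =
            Fintype.card J := by
          rw [Fintype.card_subtype]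
          exact Finset.card_filter_add_card_filter_not (s := univ) (fun g => x g = 0)
        have hcardR : (Fintype.card {g : J // x g = 0} : ℝ) ≤ 9 / 10 * (Fintype.card J : ℝ) := by
          have : (Fintype.card {g : J // x g = 0} : ℝ) +
              ((univ.filter fun g => x g ≠ 0).card : ℝ) = (Fintype.card J : ℝ) := by
            exact_mod_cast hcard
          linarith
        have hpos : (0 : ℝ) < Fintype.card J := by
          have : 0 < Fintype.card J := by omega
          exact_mod_cast this
        have hlt : Fintype.card {g : J // x g = 0} < m := by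
          rw [← hm]
          have : (Fintype.card {g : J // x g = 0} : ℝ) < Fintype.card J := by linarith
          exact_mod_cast this
        obtain ⟨ε', hε', hε'n⟩ := ih _ hlt {g : J // x g = 0} (fun g => A g.1) rfl
          (by omega) (fun g i => hA g.1 i)
        refine ⟨fun g => if hg : x g = 0 then ε' ⟨g, hg⟩ else x g, fun g => ?_, fun i => ?_⟩
        · by_cases hg : x g = 0
          · simp only [hg, dif_pos]
            exact hε' _
          · simp only [hg, dif_neg, not_false_iff]
            exact (hx g).resolve_left hg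
        · have hsplit : ∑ g, (((if hg : x g = 0 then ε' ⟨g, hg⟩ else x g : ℝ)) : ℂ) • A g i =
              (∑ g : {g : J // x g = 0}, ((ε' g : ℝ) : ℂ) • A g.1 i) +
                ∑ g, ((x g : ℝ) : ℂ) • A g i := by
            rw [← Fintype.sum_subtype_add_sum_subtype (fun g => x g = 0)
              (fun g => (((if hg : x g = 0 then ε' ⟨g, hg⟩ else x g : ℝ)) : ℂ) • A g i),
              ← Fintype.sum_subtype_add_sum_subtype (fun g => x g = 0)
              (fun g => ((x g : ℝ) : ℂ) • A g i)]
            have e1 : ∑ g : {g : J // x g = 0}, ((x g.1 : ℝ) : ℂ) • A g.1 i = 0 :=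
              Finset.sum_eq_zero fun g _ => by rw [g.2, Complex.ofReal_zero, zero_smul]
            rw [e1, zero_add]
            congr 1
            · refine Finset.sum_congr rfl fun g _ => ?_
              rw [dif_pos g.2]
            · refine Finset.sum_congr rfl fun g _ => ?_
              rw [dif_neg g.2]
          rw [hsplit]
          refine (norm_add_le _ _).trans ?_
          have b1 := hε'n i
          have b2 := hxn i
          have hN : (0 : ℝ) ≤ (n : ℝ) ^ (3 / 8 : ℝ) := by positivity
          have hM : (0 : ℝ) ≤ (Fintype.card J : ℝ) ^ (1 / 8 : ℝ) := by positivity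
          have b3 : (Fintype.card {g : J // x g = 0} : ℝ) ^ (1 / 8 : ℝ) ≤
              1979 / 2000 * (Fintype.card J : ℝ) ^ (1 / 8 : ℝ) := by
            calc (Fintype.card {g : J // x g = 0} : ℝ) ^ (1 / 8 : ℝ)
                ≤ (9 / 10 * (Fintype.card J : ℝ)) ^ (1 / 8 : ℝ) :=
                  Real.rpow_le_rpow (by positivity) hcardR (by norm_num)
              _ = (9 / 10 : ℝ) ^ (1 / 8 : ℝ) * (Fintype.card J : ℝ) ^ (1 / 8 : ℝ) :=
                  Real.mul_rpow (by norm_num) hpos.le
              _ ≤ _ := mul_le_mul_of_nonneg_right num1 hM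
          have b4 : 4000 * (n : ℝ) ^ (3 / 8 : ℝ) *
              (Fintype.card {g : J // x g = 0} : ℝ) ^ (1 / 8 : ℝ) ≤
              4000 * (n : ℝ) ^ (3 / 8 : ℝ) *
                (1979 / 2000 * (Fintype.card J : ℝ) ^ (1 / 8 : ℝ)) :=
            mul_le_mul_of_nonneg_left b3 (by positivity)
          unfold sc at b2
          calc _ ≤ 4000 * (n : ℝ) ^ (3 / 8 : ℝ) *
                (1979 / 2000 * (Fintype.card J : ℝ) ^ (1 / 8 : ℝ)) +
                3 * (14 * (n : ℝ) ^ (3 / 8 : ℝ) * (Fintype.card J : ℝ) ^ (1 / 8 : ℝ)) :=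
                add_le_add (b1.trans b4) b2
            _ = 4000 * (n : ℝ) ^ (3 / 8 : ℝ) * (Fintype.card J : ℝ) ^ (1 / 8 : ℝ) := by ring
  intro J _ _ A hJn hA
  exact key _ J A rfl hJn hA

end Pool.Agent.H172R2.GS

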