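import Pool.Agent.H670GS.Stm

/-! Group Spencer, piece NET: nets of balls in finite dimensional real normed spaces. -/

set_option autoImplicit false

open scoped Matrix.Norms.L2Operator Matrix
open Finset

namespace Pool.Agent.H172R2.GS

theorem NET_one (E : Type) [NormedAddCommGroup E] [NormedSpace ℝ E] [FiniteDimensional ℝ E] :
    ∃ s : Finset E, s.card ≤ 5 ^ (Module.finrank ℝ E) ∧ ∀ x : E, ‖x‖ ≤ 2 → ∃ y ∈ s, ‖x - y‖ ≤ 1 := by
  classical
  let P : ℕ → Prop := fun m => ∃ s : Finset E, s.card = m ∧ (∀ c ∈ s, ‖c‖ ≤ 2) ∧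
    ∀ c ∈ s, ∀ d ∈ s, c ≠ d → 1 ≤ ‖c - d‖
  have hP0 : P 0 := ⟨∅, by simp, by simp, by simp⟩
  have hbd : ∀ m, P m → m ≤ 5 ^ (Module.finrank ℝ E) := by
    rintro m ⟨s, rfl, h1, h2⟩
    exact Besicovitch.card_le_of_separated s h1 h2
  have hM := Nat.findGreatest_spec (P := P) (Nat.zero_le (5 ^ (Module.finrank ℝ E))) hP0
  obtain ⟨s, hs, h1, h2⟩ := hM
  refine ⟨s, ?_, ?_⟩
  · rw [hs]; exact Nat.findGreatest_le _
  · intro x hx
    by_contra hcon
    push Not at hcon
    have hxs : x ∉ s := by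
      intro hxs
      have := hcon x hxs
      simp at this
      linarith
    have hP1 : P (s.card + 1) := by
      refine ⟨insert x s, Finset.card_insert_of_notMem hxs, ?_, ?_⟩
      · intro c hc
        rcases Finset.mem_insert.1 hc with rfl | hc
        · exact hx
        · exact h1 c hc
      · intro c hc d hd hcd
        rcases Finset.mem_insert.1 hc with hc1 | hc1 <;>
          rcases Finset.mem_insert.1 hd with hd1 | hd1
        · exact absurd (hc1.trans hd1.symm) hcd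
        · rw [hc1]; exact (hcon d hd1).le
        · rw [hd1, norm_sub_rev]; exact (hcon c hc1).le
        · exact h2 c hc1 d hd1 hcd
    have h3 := hbd _ hP1
    have h4 := Nat.le_findGreatest h3 hP1
    omega

theorem t_NET : S_NET := by
  intro E _ _ _ j κ hκ
  classical
  obtain ⟨s, hs, hcov⟩ := NET_one E
  induction j with
  | zero =>
    refine ⟨{0}, by simp, fun x hx => ⟨0, by simp, ?_⟩⟩
    simpa using hx
  | succ j ih =>
    obtain ⟨F, hF, hF2⟩ := ih
    refine ⟨Finset.image₂ (fun z y => (2 ^ j * κ) • z + y) s F, ?_, ?_⟩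
    · calc (Finset.image₂ (fun z y => (2 ^ j * κ) • z + y) s F).card ≤ s.card * F.card :=
            Finset.card_image₂_le _ _ _
        _ ≤ 5 ^ (Module.finrank ℝ E) * 5 ^ (Module.finrank ℝ E * j) := Nat.mul_le_mul hs hF
        _ = 5 ^ (Module.finrank ℝ E * (j + 1)) := by rw [← pow_add]; ring_nf
    · intro x hx
      have hpos : 0 < 2 ^ j * κ := by positivity
      have h1 : ‖(2 ^ j * κ)⁻¹ • x‖ ≤ 2 := by
        rw [norm_smul, norm_inv, Real.norm_of_nonneg hpos.le, inv_mul_le_iff₀ hpos]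
        calc ‖x‖ ≤ 2 ^ (j + 1) * κ := hx
          _ = 2 ^ j * κ * 2 := by rw [pow_succ]; ring
      obtain ⟨z, hz, hz2⟩ := hcov _ h1
      have h2 : ‖x - (2 ^ j * κ) • z‖ ≤ 2 ^ j * κ := by
        have h3 : x - (2 ^ j * κ) • z = (2 ^ j * κ) • ((2 ^ j * κ)⁻¹ • x - z) := by
          rw [smul_sub, smul_smul, mul_inv_cancel₀ hpos.ne', one_smul]
        rw [h3, norm_smul, Real.norm_of_nonneg hpos.le]
        calc 2 ^ j * κ * ‖(2 ^ j * κ)⁻¹ • x - z‖ ≤ 2 ^ j * κ * 1 :=
              mul_le_mul_of_nonneg_left hz2 hpos.le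
          _ = 2 ^ j * κ := mul_one _
      obtain ⟨y, hy, hy2⟩ := hF2 _ h2
      refine ⟨(2 ^ j * κ) • z + y, Finset.mem_image₂_of_mem hz hy, ?_⟩
      rwa [← sub_sub]

end Pool.Agent.H172R2.GS
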