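import Pool.Agent.H670GS.Stm

/-!
# NUM: the numerical inequality
-/

set_option autoImplicit false

namespace Pool.Agent.H172R2.GS

theorem NUM_log5 : Real.log 5 ≤ 1.62 := by
  have h2 := Real.log_two_lt_d9
  have h : Real.log ((5 : ℝ) ^ 3) ≤ Real.log ((2 : ℝ) ^ 7) :=
    Real.log_le_log (by norm_num) (by norm_num)
  rw [Real.log_pow, Real.log_pow] at h
  push_cast at h
  linarith

theorem NUM_log1000 : Real.log 1000 ≤ 7 := by
  have h2 := Real.log_two_lt_d9
  have h : Real.log (1000 : ℝ) ≤ Real.log ((2 : ℝ) ^ 10) :=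
    Real.log_le_log (by norm_num) (by norm_num)
  rw [Real.log_pow] at h
  push_cast at h
  linarith

theorem NUM_log4 : Real.log 4 ≤ 1.4 := by
  have h2 := Real.log_two_lt_d9
  have h : Real.log (4 : ℝ) = Real.log ((2 : ℝ) ^ 2) := by norm_num
  rw [h, Real.log_pow]
  push_cast
  linarith

theorem NUM_sc (m n : ℕ) (hm : (0 : ℝ) < m) (hn : (0 : ℝ) < n) :
    (sc m n) ^ 4 = 38416 * (n * Real.sqrt n) * Real.sqrt m := by
  have h1 : (((n : ℝ)) ^ (3 / 8 : ℝ)) ^ 4 = n * Real.sqrt n := by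
    rw [← Real.rpow_natCast, ← Real.rpow_mul hn.le, Real.sqrt_eq_rpow]
    have : (3 / 8 : ℝ) * ((4 : ℕ) : ℝ) = 1 + 1 / 2 := by norm_num
    rw [this, Real.rpow_add hn, Real.rpow_one]
  have h2 : (((m : ℝ)) ^ (1 / 8 : ℝ)) ^ 4 = Real.sqrt m := by
    rw [← Real.rpow_natCast, ← Real.rpow_mul hm.le, Real.sqrt_eq_rpow]
    norm_num
  unfold sc
  rw [mul_pow, mul_pow, h1, h2]
  norm_num

theorem t_NUM : S_NUM := by
  intro m n q k hm hmn h
  have hmR : (0 : ℝ) < m := by exact_mod_cast hm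
  have hnR : (0 : ℝ) < n := by exact_mod_cast (hm.trans_le hmn)
  have hmnR : (m : ℝ) ≤ n := by exact_mod_cast hmn
  rw [NUM_sc m n hmR hnR] at h
  have ha2 : Real.sqrt m ^ 2 = m := Real.sq_sqrt hmR.le
  have hb2 : Real.sqrt n ^ 2 = n := Real.sq_sqrt hnR.le
  have hab : Real.sqrt m ≤ Real.sqrt n := Real.sqrt_le_sqrt hmnR
  have ha : 0 < Real.sqrt m := Real.sqrt_pos.2 hmR
  have hb : 0 < Real.sqrt n := Real.sqrt_pos.2 hnR
  generalize Real.sqrt m = a at h ha2 hab ha
  generalize Real.sqrt n = b at h hb2 hab hb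
  have hq0 : (0 : ℝ) ≤ q := Nat.cast_nonneg q
  have h16 : (0 : ℝ) < 16 ^ k := by positivity
  have h2k : (0 : ℝ) < 2 ^ k := by positivity
  have h4k : (0 : ℝ) < 4 ^ k := by positivity
  have h8k : (0 : ℝ) < 8 ^ k := by positivity
  have e16 : (16 : ℝ) ^ k = 2 ^ k * 8 ^ k := by rw [← mul_pow]; norm_num
  have e4 : (4 : ℝ) ^ k = 2 ^ k * 2 ^ k := by rw [← mul_pow]; norm_num
  have hB : (1 : ℝ) + k * 7 ≤ 8 ^ k := by
    have := one_add_mul_le_pow (a := (7 : ℝ)) (by norm_num) k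
    norm_num at this ⊢
    linarith
  have hk0 : (0 : ℝ) ≤ k := Nat.cast_nonneg k
  have h21 : (1 : ℝ) ≤ 2 ^ k := one_le_pow₀ (by norm_num)
  -- q b <= Q a with Q = 6 m / (38416 * 16 ^ k)
  set Q : ℝ := 6 * m / (38416 * 16 ^ k) with hQ
  have hQ0 : 0 < Q := by positivity
  have hqb : (q : ℝ) * b ≤ Q * a := by
    rw [hQ, div_mul_eq_mul_div, le_div_iff₀ (by positivity)]
    have h1 : (q * b * (38416 * 16 ^ k)) * (n * a) ≤ (6 * m * a) * (n * a) := by
      calc (q * b * (38416 * 16 ^ k)) * (n * a)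
          = q * (16 ^ k * (38416 * (n * b) * a)) := by ring
        _ ≤ 6 * (m : ℝ) ^ 2 * n := h
        _ = (6 * m * a) * (n * a) := by rw [← ha2]; ring
    exact le_of_mul_le_mul_right h1 (by positivity)
  have hqQ : (q : ℝ) ≤ Q := by
    have h1 : (q : ℝ) * b ≤ Q * b := hqb.trans (mul_le_mul_of_nonneg_left hab hQ0.le)
    exact le_of_mul_le_mul_right h1 hb
  -- logarithm of n / m
  have hlog : Real.log (n / m) ≤ 2 * (b / a) := by
    have e : (n : ℝ) / m = (b / a) ^ 2 := by rw [← ha2, ← hb2]; ring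
    rw [e, Real.log_pow]
    have h1 := Real.log_le_sub_one_of_pos (div_pos hb ha)
    push_cast
    linarith
  have hqlog : (q : ℝ) * Real.log (n / m) ≤ 2 * Q := by
    calc (q : ℝ) * Real.log (n / m) ≤ q * (2 * (b / a)) := mul_le_mul_of_nonneg_left hlog hq0
      _ = 2 * (q * b) / a := by ring
      _ ≤ 2 * Q := by
          rw [div_le_iff₀ ha]
          linarith
  have hnm : (0 : ℝ) < n / m := div_pos hnR hmR
  refine ⟨(m / n) / (1000 * 4 ^ k), by positivity, ?_, ?_⟩
  · rw [div_le_iff₀ (by positivity)]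
    have h1 : (m : ℝ) / n ≤ 1 := (div_le_one hnR).2 hmnR
    have h2 : (1 : ℝ) ≤ 4 ^ k := one_le_pow₀ (by norm_num)
    linarith
  · have hz : (0 : ℝ) < (m / n) / (1000 * 4 ^ k) := by positivity
    have hlz : Real.log ((m / n) / (1000 * 4 ^ k)) =
        - (Real.log (n / m) + Real.log 1000 + k * Real.log 4) := by
      rw [Real.log_div (by positivity) (by positivity), Real.log_mul (by norm_num) (by positivity),
        Real.log_pow, show (m : ℝ) / n = ((n : ℝ) / m)⁻¹ by rw [inv_div], Real.log_inv]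
      ring
    have e5 : (5 : ℝ) ^ (2 * (4 * k + 5) * q) = Real.exp ((2 * (4 * k + 5) * q) * Real.log 5) := by
      rw [mul_comm ((2 : ℝ) * (4 * k + 5) * q), Real.exp_mul, Real.exp_log (by norm_num),
        ← Real.rpow_natCast]
      push_cast
      ring_nf
    have ez : ((m / n : ℝ) / (1000 * 4 ^ k)) ^ q =
        Real.exp (q * Real.log ((m / n) / (1000 * 4 ^ k))) := by
      rw [mul_comm (q : ℝ), Real.exp_mul, Real.exp_log hz, Real.rpow_natCast]
    rw [e5, ez, ← Real.exp_add, ← Real.exp_add, Real.exp_le_exp, hlz]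
    -- bounds
    have t1 : 2 * ((m / n : ℝ) / (1000 * 4 ^ k)) * n ≤ m / (500 * 2 ^ k) := by
      have e : 2 * ((m / n : ℝ) / (1000 * 4 ^ k)) * n = m / (500 * 4 ^ k) := by
        field_simp
        norm_num
      rw [e]
      apply div_le_div_of_nonneg_left hmR.le (by positivity)
      rw [e4]
      nlinarith
    have t2 : (2 * (4 * k + 5) * q : ℝ) * Real.log 5 ≤ (12.96 * k + 16.2) * Q := by
      have h5 := NUM_log5
      have h50 : 0 ≤ Real.log 5 := Real.log_nonneg (by norm_num)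
      calc (2 * (4 * k + 5) * q : ℝ) * Real.log 5 ≤ (2 * (4 * k + 5) * Q) * 1.62 := by
            gcongr
        _ = (12.96 * k + 16.2) * Q := by ring
    have t3 : (q : ℝ) * (Real.log 1000 + k * Real.log 4) ≤ (7 + 1.4 * k) * Q := by
      have h1 := NUM_log1000
      have h2 := NUM_log4
      have h10 : 0 ≤ Real.log 1000 := Real.log_nonneg (by norm_num)
      have h20 : 0 ≤ Real.log 4 := Real.log_nonneg (by norm_num)
      calc (q : ℝ) * (Real.log 1000 + k * Real.log 4) ≤ Q * (7 + k * 1.4) := by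
            gcongr
        _ = (7 + 1.4 * k) * Q := by ring
    have t4' : (14.36 * k + 25.2) * Q ≤ 0.004 * (m / 2 ^ k) := by
      have h1 : (14.36 * k + 25.2 : ℝ) ≤ 25.2 * 8 ^ k := by nlinarith
      calc (14.36 * k + 25.2) * Q ≤ (25.2 * 8 ^ k) * Q := by gcongr
        _ = (25.2 * 6 / 38416) * (m / 2 ^ k) := by
            rw [hQ, e16]
            field_simp
        _ ≤ 0.004 * (m / 2 ^ k) := by
            gcongr
            norm_num
    have t5 : (m : ℝ) / (500 * 2 ^ k) = 0.002 * (m / 2 ^ k) := by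
      field_simp
      norm_num
    have t6 : (m : ℝ) / (100 * 2 ^ k) = 0.01 * (m / 2 ^ k) := by
      field_simp
      norm_num
    have t7 : 0 < (m : ℝ) / 2 ^ k := by positivity
    rw [t6]
    rw [t5] at t1
    nlinarith

end Pool.Agent.H172R2.GS
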