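import Pool.Agent.H670GS.Stm

/-!
# PC: the partial colouring step, from the fourth moment bound, the cover and the pair of
sign vectors that are far apart
-/

set_option autoImplicit false

open scoped Matrix.Norms.L2Operator Matrix
open Finset

namespace Pool.Agent.H172R2.GS

namespace PCaux

lemma t4_nonneg {d : ℕ} (Y : Matrix (Fin d) (Fin d) ℂ) : 0 ≤ t4 Y := by
  have h : (Yᴴ * Y)ᴴ = (Yᴴ * Y) := by
    rw [Matrix.conjTranspose_mul, Matrix.conjTranspose_conjTranspose]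
  unfold t4
  have h2 : Matrix.trace ((Yᴴ * Y) * (Yᴴ * Y)) = Matrix.trace ((Yᴴ * Y)ᴴ * (Yᴴ * Y)) := by
    rw [h]
  rw [h2]
  simp only [Matrix.trace, Matrix.diag_apply]
  rw [Complex.re_sum]
  refine Finset.sum_nonneg fun i _ => ?_
  rw [Matrix.mul_apply, Complex.re_sum]
  refine Finset.sum_nonneg fun j _ => ?_
  rw [Matrix.conjTranspose_apply, Complex.star_def, mul_comm, Complex.mul_conj,
    Complex.ofReal_re]
  exact Complex.normSq_nonneg _

lemma sum_T_le (h1 : S_M4) {ι : Type} [Fintype ι] {d : ι → ℕ} {n : ℕ} (hs : ∑ i, d i ^ 2 ≤ n)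
    {J : Type} [Fintype J] [DecidableEq J] (A : J → (i : ι) → Matrix (Fin (d i)) (Fin (d i)) ℂ)
    (hA : ∀ g i, ‖A g i‖ ≤ 1) :
    ∑ ε : J → Bool, ∑ i, (d i : ℝ) * t4 (XX (fun g => A g i) ε) ≤
      2 ^ (Fintype.card J) * (3 * (Fintype.card J : ℝ) ^ 2 * n) := by
  have hs' : ∑ i, (d i : ℝ) ^ 2 ≤ (n : ℝ) := by exact_mod_cast hs
  rw [Finset.sum_comm]
  calc ∑ i, ∑ ε : J → Bool, (d i : ℝ) * t4 (XX (fun g => A g i) ε)
      = ∑ i, (d i : ℝ) * ∑ ε : J → Bool, t4 (XX (fun g => A g i) ε) := by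
        refine Finset.sum_congr rfl fun i _ => ?_
        rw [Finset.mul_sum]
    _ ≤ ∑ i, (d i : ℝ) * (2 ^ (Fintype.card J) * (3 * (Fintype.card J : ℝ) ^ 2 * d i)) := by
        refine Finset.sum_le_sum fun i _ => ?_
        exact mul_le_mul_of_nonneg_left (h1 J (d i) _ (fun g => hA g i)) (Nat.cast_nonneg _)
    _ = (2 ^ (Fintype.card J) * (3 * (Fintype.card J : ℝ) ^ 2)) * ∑ i, (d i : ℝ) ^ 2 := by
        rw [Finset.mul_sum]
        refine Finset.sum_congr rfl fun i _ => ?_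
        ring
    _ ≤ (2 ^ (Fintype.card J) * (3 * (Fintype.card J : ℝ) ^ 2)) * n :=
        mul_le_mul_of_nonneg_left hs' (by positivity)
    _ = 2 ^ (Fintype.card J) * (3 * (Fintype.card J : ℝ) ^ 2 * n) := by ring

lemma markov {α : Type} [Fintype α] (T : α → ℝ) (hT : ∀ a, 0 ≤ T a) (M N : ℝ) (hM : 0 < M)
    (hN : (Fintype.card α : ℝ) = N) (hsum : ∑ a, T a ≤ N * M)
    [DecidablePred fun a => T a ≤ 2 * M] :
    N / 2 ≤ ((univ.filter fun a => T a ≤ 2 * M).card : ℝ) := by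
  have h1 : ((univ.filter fun a => T a ≤ 2 * M).card : ℝ) +
      ((univ.filter fun a => ¬ T a ≤ 2 * M).card : ℝ) = N := by
    rw [← hN]
    have := Finset.card_filter_add_card_filter_not (s := (univ : Finset α))
      (fun a => T a ≤ 2 * M)
    rw [Finset.card_univ] at this
    exact_mod_cast this
  have h2 : ((univ.filter fun a => ¬ T a ≤ 2 * M).card : ℝ) * (2 * M) ≤ N * M := by
    calc ((univ.filter fun a => ¬ T a ≤ 2 * M).card : ℝ) * (2 * M)
        = ∑ a ∈ univ.filter (fun a => ¬ T a ≤ 2 * M), (2 * M) := by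
          rw [Finset.sum_const, nsmul_eq_mul]
      _ ≤ ∑ a ∈ univ.filter (fun a => ¬ T a ≤ 2 * M), T a := by
          refine Finset.sum_le_sum fun a ha => ?_
          rw [Finset.mem_filter] at ha
          exact le_of_lt (not_le.mp ha.2)
      _ ≤ ∑ a, T a :=
          Finset.sum_le_sum_of_subset_of_nonneg (Finset.filter_subset _ _)
            (fun a _ _ => hT a)
      _ ≤ N * M := hsum
  have h3 : ((univ.filter fun a => ¬ T a ≤ 2 * M).card : ℝ) * 2 ≤ N := by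
    have h4 : (((univ.filter fun a => ¬ T a ≤ 2 * M).card : ℝ) * 2) * M ≤ N * M := by
      calc _ = ((univ.filter fun a => ¬ T a ≤ 2 * M).card : ℝ) * (2 * M) := by ring
        _ ≤ _ := h2
    exact le_of_mul_le_mul_right h4 hM
  linarith

lemma pigeon {α β : Type} [DecidableEq β] (G : Finset α) (F : Finset β) (φ : α → β)
    (hφ : ∀ a ∈ G, φ a ∈ F) (K e : ℝ) (hK : 0 < K) (he : 0 < e)
    (hG : K ≤ (G.card : ℝ)) (hF : (F.card : ℝ) ≤ e) :
    ∃ Z ∈ F, K * e⁻¹ ≤ ((G.filter fun a => φ a = Z).card : ℝ) := by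
  by_contra hcon
  push Not at hcon
  have h1 : (G.card : ℝ) = ∑ Z ∈ F, ((G.filter fun a => φ a = Z).card : ℝ) := by
    have := Finset.card_eq_sum_card_fiberwise (s := G) (t := F) (f := φ)
      (fun a ha => hφ a ha)
    rw [this]
    push_cast
    rfl
  have hFne : F.Nonempty := by
    have hGpos : (0:ℝ) < G.card := lt_of_lt_of_le hK hG
    have hGne : G.Nonempty := by
      rw [← Finset.card_pos]
      exact_mod_cast hGpos
    obtain ⟨a, ha⟩ := hGne
    exact ⟨φ a, hφ a ha⟩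
  have h2 : (G.card : ℝ) < ∑ _Z ∈ F, K * e⁻¹ := by
    rw [h1]
    exact Finset.sum_lt_sum_of_nonempty hFne hcon
  rw [Finset.sum_const, nsmul_eq_mul] at h2
  have h3 : (F.card : ℝ) * (K * e⁻¹) ≤ e * (K * e⁻¹) :=
    mul_le_mul_of_nonneg_right hF (by positivity)
  have h4 : e * (K * e⁻¹) = K := by field_simp
  linarith

lemma sg_half (a b : Bool) :
    ((sg a - sg b) / 2 = 0 ∨ (sg a - sg b) / 2 = 1 ∨ (sg a - sg b) / 2 = -1) ∧
      ((sg a - sg b) / 2 ≠ 0 ↔ a ≠ b) := by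
  cases a <;> cases b <;> norm_num [sg]

end PCaux

theorem t_PC (h1 : S_M4) (h2 : S_COV) (h3 : S_HAM) : S_PC := by
  intro ι _ _ d n hd hs J _ _ A hJ4 hJn hA
  have hm0 : 0 < Fintype.card J := by omega
  have hn0 : 0 < n := by omega
  obtain ⟨F, hFcard, hF⟩ := h2 ι d (Fintype.card J) n hd hs hm0 hJn
  obtain ⟨T, hT⟩ : ∃ T : (J → Bool) → ℝ,
      T = fun ε => ∑ i, (d i : ℝ) * t4 (XX (fun g => A g i) ε) := ⟨_, rfl⟩
  have hT0 : ∀ ε, 0 ≤ T ε := by
    intro ε
    rw [hT]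
    exact Finset.sum_nonneg fun i _ => mul_nonneg (Nat.cast_nonneg _) (PCaux.t4_nonneg _)
  have hsum : ∑ ε, T ε ≤ 2 ^ (Fintype.card J) * (3 * (Fintype.card J : ℝ) ^ 2 * n) := by
    rw [hT]
    exact PCaux.sum_T_le h1 hs A hA
  have hM : (0:ℝ) < 3 * (Fintype.card J : ℝ) ^ 2 * n := by
    have h5 : (0:ℝ) < (Fintype.card J : ℝ) := by exact_mod_cast hm0
    have h6 : (0:ℝ) < (n : ℝ) := by exact_mod_cast hn0
    positivity
  have hcard : (Fintype.card (J → Bool) : ℝ) = 2 ^ (Fintype.card J) := by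
    rw [Fintype.card_fun, Fintype.card_bool]
    push_cast
    rfl
  classical
  have hG := PCaux.markov T hT0 (3 * (Fintype.card J : ℝ) ^ 2 * n) (2 ^ (Fintype.card J)) hM
    hcard hsum
  obtain ⟨G, hGdef⟩ : ∃ G : Finset (J → Bool),
      G = univ.filter fun a => T a ≤ 2 * (3 * (Fintype.card J : ℝ) ^ 2 * n) := ⟨_, rfl⟩
  rw [← hGdef] at hG
  have hφ : ∀ ε : J → Bool, ∃ Z : (i : ι) → Matrix (Fin (d i)) (Fin (d i)) ℂ, ε ∈ G →
      Z ∈ F ∧ ∀ i, ‖XX (fun g => A g i) ε - Z i‖ ≤ 3 * sc (Fintype.card J) n := by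
    intro ε
    by_cases hε : ε ∈ G
    · have h7 : T ε ≤ 2 * (3 * (Fintype.card J : ℝ) ^ 2 * n) := by
        rw [hGdef, Finset.mem_filter] at hε
        exact hε.2
      have h8 : ∑ i, (d i : ℝ) * t4 (XX (fun g => A g i) ε) ≤
          6 * (Fintype.card J : ℝ) ^ 2 * n := by
        rw [hT] at h7
        calc ∑ i, (d i : ℝ) * t4 (XX (fun g => A g i) ε)
            ≤ 2 * (3 * (Fintype.card J : ℝ) ^ 2 * n) := h7
          _ = 6 * (Fintype.card J : ℝ) ^ 2 * n := by ring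
      obtain ⟨Z, hZ, hZ2⟩ := hF (fun i => XX (fun g => A g i) ε) h8
      exact ⟨Z, fun _ => ⟨hZ, hZ2⟩⟩
    · exact ⟨0, fun h => absurd h hε⟩
  choose φ hφ using hφ
  obtain ⟨Z, hZF, hZ⟩ := PCaux.pigeon G F φ (fun a ha => (hφ a ha).1)
    ((2:ℝ) ^ (Fintype.card J) / 2) (Real.exp ((Fintype.card J : ℝ) / 50))
    (by positivity) (Real.exp_pos _) hG hFcard
  rw [← Real.exp_neg] at hZ
  have hneg : -((Fintype.card J : ℝ) / 50) = -(Fintype.card J : ℝ) / 50 := by ring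
  rw [hneg] at hZ
  obtain ⟨a, ha, b, hb, hab⟩ := h3 J (G.filter fun a => φ a = Z) hJ4 hZ
  rw [Finset.mem_filter] at ha hb
  refine ⟨fun g => (sg (a g) - sg (b g)) / 2, fun g => (PCaux.sg_half (a g) (b g)).1, ?_, ?_⟩
  · have h9 : (univ.filter fun g => (fun g => (sg (a g) - sg (b g)) / 2) g ≠ (0:ℝ)) =
        univ.filter fun g => a g ≠ b g := by
      refine Finset.filter_congr fun g _ => ?_
      exact (PCaux.sg_half (a g) (b g)).2
    have h10 : ((univ.filter fun g => a g ≠ b g).card : ℝ) ≤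
        ((univ.filter fun g => (fun g => (sg (a g) - sg (b g)) / 2) g ≠ (0:ℝ)).card : ℝ) := by
      rw [h9]
    refine le_trans hab ?_
    convert mul_le_mul_of_nonneg_left h10 (by norm_num : (0:ℝ) ≤ 10) using 2
  · intro i
    have hi1 := (hφ a ha.1).2 i
    have hi2 := (hφ b hb.1).2 i
    rw [ha.2] at hi1
    rw [hb.2] at hi2
    have h11 : ∑ g, ((((sg (a g) - sg (b g)) / 2 : ℝ)) : ℂ) • A g i =
        ((1:ℂ) / 2) • (XX (fun g => A g i) a - XX (fun g => A g i) b) := by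
      unfold XX
      rw [← Finset.sum_sub_distrib, Finset.smul_sum]
      refine Finset.sum_congr rfl fun g _ => ?_
      rw [← sub_smul, smul_smul]
      congr 1
      push_cast
      ring
    have h12 : ‖XX (fun g => A g i) a - XX (fun g => A g i) b‖ ≤
        3 * sc (Fintype.card J) n + 3 * sc (Fintype.card J) n := by
      calc ‖XX (fun g => A g i) a - XX (fun g => A g i) b‖
          = ‖(XX (fun g => A g i) a - Z i) - (XX (fun g => A g i) b - Z i)‖ := by
            congr 1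
            abel
        _ ≤ ‖XX (fun g => A g i) a - Z i‖ + ‖XX (fun g => A g i) b - Z i‖ := norm_sub_le _ _
        _ ≤ _ := add_le_add hi1 hi2
    show ‖∑ g, ((((sg (a g) - sg (b g)) / 2 : ℝ)) : ℂ) • A g i‖ ≤ 3 * sc (Fintype.card J) n
    rw [h11, norm_smul]
    have h13 : ‖((1:ℂ) / 2)‖ = 1 / 2 := by
      norm_num
    rw [h13]
    linarith

end Pool.Agent.H172R2.GS
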