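import Pool.Agent.H670GS.Stm

/-! Task RPA of the project H670-GS (helper138). -/

set_option autoImplicit false

namespace Pool.Agent.H172R2.GS

open Finset

theorem t_RPA : S_RPA := by
  intro G _ _
  have : NeZero (Nat.card G : ℂ) := ⟨by
    exact_mod_cast Nat.card_pos.ne'⟩
  obtain ⟨k, d, hd, ⟨e⟩⟩ :=
    IsSemisimpleRing.exists_algEquiv_pi_matrix_of_isAlgClosed ℂ (MonoidAlgebra ℂ G)
  refine ⟨k, d, e, fun i => Nat.pos_of_ne_zero (hd i).out, ?_⟩
  have h1 := e.toLinearEquiv.finrank_eq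
  have h2 : Module.finrank ℂ (MonoidAlgebra ℂ G) = Fintype.card G := by
    rw [Module.finrank_eq_card_basis (MonoidAlgebra.basis G ℂ)]
  rw [h2, Module.finrank_pi_fintype] at h1
  rw [h1]
  apply Finset.sum_congr rfl
  intro i _
  rw [Module.finrank_matrix]
  simp [sq]

end Pool.Agent.H172R2.GS
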