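import Pool.Agent.H670GS.Stm

/-!
# Group Spencer: unitary form of the Wedderburn isomorphism
-/

set_option autoImplicit false

open scoped Matrix.Norms.L2Operator Matrix
open Finset

namespace Pool.Agent.H172R2.GS

/-- conjugation by an invertible matrix, as an algebra homomorphism -/
noncomputable def RPB_conjHom {m : ℕ} (S T : Matrix (Fin m) (Fin m) ℂ) (h1 : S * T = 1)
    (h2 : T * S = 1) : Matrix (Fin m) (Fin m) ℂ →ₐ[ℂ] Matrix (Fin m) (Fin m) ℂ :=
  AlgHom.ofLinearMap
    { toFun := fun X => S * X * T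
      map_add' := fun X Y => by rw [mul_add, add_mul]
      map_smul' := fun c X => by simp }
    (by simp [h1])
    (fun X Y => by
      show S * (X * Y) * T = (S * X * T) * (S * Y * T)
      calc S * (X * Y) * T = S * X * (1 : Matrix (Fin m) (Fin m) ℂ) * Y * T := by
            simp only [mul_one, mul_assoc]
        _ = (S * X * T) * (S * Y * T) := by
            rw [← h2]; simp only [mul_assoc])

theorem RPB_conjHom_apply {m : ℕ} (S T : Matrix (Fin m) (Fin m) ℂ) (h1 : S * T = 1)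
    (h2 : T * S = 1) (X : Matrix (Fin m) (Fin m) ℂ) :
    RPB_conjHom S T h1 h2 X = S * X * T := rfl

/-- conjugation by an invertible matrix, as an algebra isomorphism -/
noncomputable def RPB_conj {m : ℕ} (S T : Matrix (Fin m) (Fin m) ℂ) (h1 : S * T = 1)
    (h2 : T * S = 1) : Matrix (Fin m) (Fin m) ℂ ≃ₐ[ℂ] Matrix (Fin m) (Fin m) ℂ :=
  AlgEquiv.ofAlgHom (RPB_conjHom S T h1 h2) (RPB_conjHom T S h2 h1)
    (by
      ext1 X
      simp only [AlgHom.coe_comp, Function.comp_apply, RPB_conjHom_apply, AlgHom.coe_id, id_eq]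
      calc S * (T * X * S) * T = (S * T) * X * (S * T) := by simp only [mul_assoc]
        _ = X := by rw [h1, one_mul, mul_one])
    (by
      ext1 X
      simp only [AlgHom.coe_comp, Function.comp_apply, RPB_conjHom_apply, AlgHom.coe_id, id_eq]
      calc T * (S * X * T) * S = (T * S) * X * (T * S) := by simp only [mul_assoc]
        _ = X := by rw [h2, one_mul, mul_one])

theorem RPB_conj_apply {m : ℕ} (S T : Matrix (Fin m) (Fin m) ℂ) (h1 : S * T = 1)
    (h2 : T * S = 1) (X : Matrix (Fin m) (Fin m) ℂ) :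
    RPB_conj S T h1 h2 X = S * X * T := rfl

open scoped ComplexOrder MatrixOrder in
/-- averaging: a finite group of matrices preserves a positive definite form -/
theorem RPB_form {G : Type} [Group G] [Fintype G] {m : ℕ} (ρ : G → Matrix (Fin m) (Fin m) ℂ)
    (h1 : ρ 1 = 1) (hm : ∀ g h, ρ (g * h) = ρ g * ρ h) :
    ∃ S T : Matrix (Fin m) (Fin m) ℂ, S * T = 1 ∧ T * S = 1 ∧
      ∀ g, (ρ g)ᴴ * (Sᴴ * S) * ρ g = Sᴴ * S := by
  classical
  set P : Matrix (Fin m) (Fin m) ℂ := ∑ g : G, (ρ g)ᴴ * ρ g with hP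
  have hpd : P.PosDef := by
    rw [hP, ← Finset.add_sum_erase _ _ (Finset.mem_univ (1 : G))]
    refine Matrix.PosDef.add_posSemidef ?_ ?_
    · rw [h1]
      simpa using (Matrix.PosDef.one : (1 : Matrix (Fin m) (Fin m) ℂ).PosDef)
    · exact Matrix.posSemidef_sum _ fun g _ => Matrix.posSemidef_conjTranspose_mul_self (ρ g)
  obtain ⟨S, hS⟩ := CStarAlgebra.nonneg_iff_eq_star_mul_self.mp hpd.posSemidef.nonneg
  rw [Matrix.star_eq_conjTranspose] at hS
  have hdet : S.det ≠ 0 := by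
    intro h0
    have h2 : P.det ≠ 0 := ne_of_gt hpd.det_pos
    apply h2
    rw [hS, Matrix.det_mul, h0, mul_zero]
  have hu : IsUnit S.det := isUnit_iff_ne_zero.2 hdet
  refine ⟨S, S⁻¹, Matrix.mul_nonsing_inv S hu, Matrix.nonsing_inv_mul S hu, fun h => ?_⟩
  rw [← hS, hP, Finset.mul_sum, Finset.sum_mul]
  refine Fintype.sum_equiv (Equiv.mulRight h) _ _ fun g => ?_
  rw [Equiv.coe_mulRight, hm, Matrix.conjTranspose_mul]
  simp only [Matrix.mul_assoc]

theorem t_RPB : S_RPB := by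
  intro G _ _ k d Φ
  have hmul : ∀ (i : Fin k) (g h : G), Φ (MonoidAlgebra.single (g * h) 1) i =
      Φ (MonoidAlgebra.single g 1) i * Φ (MonoidAlgebra.single h 1) i := by
    intro i g h
    rw [← Pi.mul_apply, ← map_mul, MonoidAlgebra.single_mul_single, one_mul]
  have hone : ∀ i : Fin k, Φ (MonoidAlgebra.single (1 : G) 1) i = 1 := by
    intro i
    rw [← MonoidAlgebra.one_def, map_one, Pi.one_apply]
  choose S T h1 h2 h3 using fun i : Fin k =>
    RPB_form (fun g : G => Φ (MonoidAlgebra.single g 1) i) (hone i) (hmul i)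
  refine ⟨Φ.trans (AlgEquiv.piCongrRight fun i => RPB_conj (S i) (T i) (h1 i) (h2 i)), ?_⟩
  intro g i
  have hΨ : (Φ.trans (AlgEquiv.piCongrRight fun i => RPB_conj (S i) (T i) (h1 i) (h2 i)))
      (MonoidAlgebra.single g 1) i = S i * Φ (MonoidAlgebra.single g 1) i * T i := rfl
  rw [hΨ, Matrix.conjTranspose_mul, Matrix.conjTranspose_mul]
  calc (T i)ᴴ * ((Φ (MonoidAlgebra.single g 1) i)ᴴ * (S i)ᴴ) *
        (S i * Φ (MonoidAlgebra.single g 1) i * T i)
      = (T i)ᴴ * ((Φ (MonoidAlgebra.single g 1) i)ᴴ * ((S i)ᴴ * S i) *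
          Φ (MonoidAlgebra.single g 1) i) * T i := by simp only [Matrix.mul_assoc]
    _ = (T i)ᴴ * ((S i)ᴴ * S i) * T i := by rw [h3 i g]
    _ = ((T i)ᴴ * (S i)ᴴ) * (S i * T i) := by simp only [Matrix.mul_assoc]
    _ = 1 := by rw [← Matrix.conjTranspose_mul, h1 i, Matrix.conjTranspose_one, Matrix.one_mul]

end Pool.Agent.H172R2.GS
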