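import Pool.Agent.H670GS.Stm
import Pool.Agent.H670GS.T_M0
import Pool.Agent.H670GS.T_M4
import Pool.Agent.H670GS.T_DEC
import Pool.Agent.H670GS.T_NET
import Pool.Agent.H670GS.T_LR
import Pool.Agent.H670GS.T_CNT
import Pool.Agent.H670GS.T_LEV
import Pool.Agent.H670GS.T_NUM
import Pool.Agent.H670GS.T_LVK
import Pool.Agent.H670GS.T_COV
import Pool.Agent.H670GS.T_PC
import Pool.Agent.H670GS.T_MAIN
import Pool.Agent.H670GS.T_RPA
import Pool.Agent.H670GS.T_RPB
import Pool.Agent.H670GS.T_REP2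
import Pool.Agent.H670GS.T_FIN

set_option autoImplicit false

namespace Pool.Agent.H172R2.GS

/-- Group Spencer and the theorem on block diagonal matrices -/
theorem gs_main : S_MAIN ∧ S_FIN :=
  gs_main_of t_M0 t_M4 t_DEC t_NET t_LR t_CNT t_LEV t_NUM t_LVK t_COV t_PC t_MAIN t_RPA t_RPB
    t_REP2 t_FIN

end Pool.Agent.H172R2.GS
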