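import Pool.Agent.H172R2.GS.Defs
import Pool.Agent.H172R2.GS.HAM

/-!
# Group Spencer: finer pieces and the assembly

The statements of `H172R2/GS/Defs.lean` with three more intermediate ones, and the theorem that
the pieces give the final result.
-/

set_option autoImplicit false

open scoped Matrix.Norms.L2Operator Matrix
open Finset

namespace Pool.Agent.H172R2.GS

/-- NUM: the numerical inequality behind the size of the cover of level `k` -/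
def S_NUM : Prop := ∀ (m n q k : ℕ), 0 < m → m ≤ n →
  (q : ℝ) * (16 ^ k * (sc m n) ^ 4) ≤ 6 * (m : ℝ) ^ 2 * n →
  ∃ z : ℝ, 0 < z ∧ z ≤ 1 / 2 ∧
    Real.exp (2 * z * n) * 5 ^ (2 * (4 * k + 5) * q) ≤ z ^ q * Real.exp ((m : ℝ) / (100 * 2 ^ k))

/-- LVK: cover of level `k` with the size needed -/
def S_LVK : Prop := ∀ (ι : Type) [Fintype ι] [DecidableEq ι] (d : ι → ℕ) (m n k : ℕ),
  (∀ i, 0 < d i) → ∑ i, d i ^ 2 ≤ n → 0 < m → m ≤ n →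
  ∃ F : Finset ((i : ι) → Matrix (Fin (d i)) (Fin (d i)) ℂ),
    (F.card : ℝ) ≤ Real.exp ((m : ℝ) / (100 * 2 ^ k)) ∧
    ∀ (r : ι → ℕ) (W V : (i : ι) → Matrix (Fin (d i)) (Fin (r i)) ℂ),
      (∑ i, (d i : ℝ) * r i) * (16 ^ k * (sc m n) ^ 4) ≤ 6 * (m : ℝ) ^ 2 * n →
      (∀ i, ‖W i‖ ≤ 2 ^ (k + 1) * sc m n) → (∀ i, ‖V i‖ ≤ 1) →
      ∃ Z ∈ F, ∀ i, ‖W i * (V i)ᴴ - Z i‖ ≤ sc m n / 2 ^ k

/-- RPA: the group algebra is a product of matrix algebras -/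
def S_RPA : Prop := ∀ (G : Type) [Group G] [Fintype G],
  ∃ (k : ℕ) (d : Fin k → ℕ) (_ : MonoidAlgebra ℂ G ≃ₐ[ℂ]
      ((i : Fin k) → Matrix (Fin (d i)) (Fin (d i)) ℂ)),
    (∀ i, 0 < d i) ∧ ∑ i, d i ^ 2 = Fintype.card G

/-- RPB: the isomorphism can be chosen such that the group elements become unitary -/
def S_RPB : Prop := ∀ (G : Type) [Group G] [Fintype G] (k : ℕ) (d : Fin k → ℕ)
  (_ : MonoidAlgebra ℂ G ≃ₐ[ℂ] ((i : Fin k) → Matrix (Fin (d i)) (Fin (d i)) ℂ)),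
  ∃ Ψ : MonoidAlgebra ℂ G ≃ₐ[ℂ] ((i : Fin k) → Matrix (Fin (d i)) (Fin (d i)) ℂ),
    ∀ (g : G) (i : Fin k), (Ψ (MonoidAlgebra.single g 1) i)ᴴ * Ψ (MonoidAlgebra.single g 1) i = 1

theorem rep1_of (ha : S_RPA) (hb : S_RPB) : S_REP1 := by
  intro G _ _ _
  obtain ⟨k, d, Φ, hd, hs⟩ := ha G
  obtain ⟨Ψ, hΨ⟩ := hb G k d Φ
  exact ⟨k, d, Ψ, hd, hs, hΨ⟩

/-- the assembly -/
theorem gs_main_of (tM0 : S_M0) (tM4 : S_M0 → S_M4) (tDEC : S_DEC) (tNET : S_NET)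
    (tLR : S_NET → S_LR) (tCNT : S_CNT) (tLEV : S_LR → S_CNT → S_LEV) (tNUM : S_NUM)
    (tLVK : S_LEV → S_NUM → S_LVK) (tCOV : S_DEC → S_LVK → S_COV)
    (tPC : S_M4 → S_COV → S_HAM → S_PC) (tMAIN : S_PC → S_MAIN)
    (tRPA : S_RPA) (tRPB : S_RPB) (tREP2 : S_REP2)
    (tFIN : S_MAIN → S_REP1 → S_REP2 → S_FIN) : S_MAIN ∧ S_FIN := by
  have hm4 := tM4 tM0
  have hlev := tLEV (tLR tNET) tCNT
  have hcov := tCOV tDEC (tLVK hlev tNUM)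
  have hmain := tMAIN (tPC hm4 hcov HAM_ok)
  exact ⟨hmain, tFIN hmain (rep1_of tRPA tRPB) tREP2⟩

end Pool.Agent.H172R2.GS
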