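import Pool.Agent.H670GS.Stm

set_option autoImplicit false
set_option linter.unusedSectionVars false

/-!
Task REP2 of project H670-GS (helper498): the norm of an element of the group algebra in the left
regular representation is at most the maximum of the norms in the blocks.
-/

open scoped Matrix.Norms.L2Operator Matrix
open Finset

namespace Pool.Agent.H172R2.GS

section

variable {G : Type} [Group G] [Fintype G] [DecidableEq G]

/-- left translation as a complex matrix -/
def REP2_P (g : G) : Matrix G G ℂ := Matrix.of fun u w : G => if g * w = u then (1 : ℂ) else 0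

theorem REP2_P_one : REP2_P (1 : G) = 1 := by
  ext u w
  simp only [REP2_P, Matrix.of_apply, one_mul, Matrix.one_apply]
  by_cases h : w = u
  · rw [if_pos h, if_pos h.symm]
  · rw [if_neg h, if_neg (fun h' => h h'.symm)]

theorem REP2_P_mul (g h : G) : REP2_P (g * h) = REP2_P g * REP2_P h := by
  ext u w
  simp only [REP2_P, Matrix.of_apply, Matrix.mul_apply, mul_ite, mul_one, mul_zero]
  rw [Finset.sum_eq_single (h * w)]
  · rw [if_pos rfl]
    by_cases h1 : g * (h * w) = u
    · rw [if_pos h1, if_pos (by rw [mul_assoc]; exact h1)]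
    · rw [if_neg h1, if_neg (by rw [mul_assoc]; exact h1)]
  · intro b _ hb
    rw [if_neg (fun h' => hb h'.symm)]
  · intro h'
    exact absurd (mem_univ _) h'

theorem REP2_P_star (g : G) : star (REP2_P g) = REP2_P g⁻¹ := by
  ext u w
  rw [Matrix.star_eq_conjTranspose, Matrix.conjTranspose_apply]
  simp only [REP2_P, Matrix.of_apply]
  by_cases h : g * u = w
  · rw [if_pos h, if_pos (by rw [← h, inv_mul_cancel_left]), star_one]
  · rw [if_neg h, if_neg (fun h' => h (by rw [← h', mul_inv_cancel_left])), star_zero]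

/-- the left regular representation as a monoid homomorphism -/
def REP2_hom (G : Type) [Group G] [Fintype G] [DecidableEq G] : G →* Matrix G G ℂ where
  toFun := REP2_P
  map_one' := REP2_P_one
  map_mul' := REP2_P_mul

/-- the left regular representation of the group algebra -/
noncomputable def REP2_lam (G : Type) [Group G] [Fintype G] [DecidableEq G] :
    MonoidAlgebra ℂ G →ₐ[ℂ] Matrix G G ℂ := MonoidAlgebra.lift ℂ (Matrix G G ℂ) G (REP2_hom G)

theorem REP2_lam_single (g : G) (c : ℂ) :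
    REP2_lam G (MonoidAlgebra.single g c) = c • REP2_P g := by
  unfold REP2_lam
  rw [MonoidAlgebra.lift_single]
  rfl

theorem REP2_single_smul (g : G) (c : ℂ) :
    (MonoidAlgebra.single g c : MonoidAlgebra ℂ G) = c • MonoidAlgebra.single g 1 := by
  rw [MonoidAlgebra.smul_single, smul_eq_mul, mul_one]

theorem REP2_star {k : ℕ} {d : Fin k → ℕ}
    (Ψ : MonoidAlgebra ℂ G ≃ₐ[ℂ] ((i : Fin k) → Matrix (Fin (d i)) (Fin (d i)) ℂ))
    (hΨ : ∀ (g : G) (i : Fin k),
      (Ψ (MonoidAlgebra.single g 1) i)ᴴ * Ψ (MonoidAlgebra.single g 1) i = 1)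
    (z : MonoidAlgebra ℂ G) :
    ∃ z', Ψ z' = star (Ψ z) ∧ REP2_lam G z' = star (REP2_lam G z) := by
  induction z using MonoidAlgebra.induction_linear with
  | zero => exact ⟨0, by simp, by simp⟩
  | add a b ha hb =>
    obtain ⟨a', ha1, ha2⟩ := ha
    obtain ⟨b', hb1, hb2⟩ := hb
    exact ⟨a' + b', by rw [map_add, map_add, star_add, ha1, hb1],
      by rw [map_add, map_add, star_add, ha2, hb2]⟩
  | single g c =>
    refine ⟨MonoidAlgebra.single g⁻¹ (star c), ?_, ?_⟩
    · rw [REP2_single_smul g c, REP2_single_smul g⁻¹, map_smul, map_smul, star_smul]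
      congr 1
      funext i
      have h1 : (Ψ (MonoidAlgebra.single g 1) i) * (Ψ (MonoidAlgebra.single g⁻¹ 1) i) = 1 := by
        rw [← Pi.mul_apply, ← map_mul, MonoidAlgebra.single_mul_single, mul_inv_cancel, mul_one]
        have : (MonoidAlgebra.single (1 : G) (1 : ℂ) : MonoidAlgebra ℂ G) = 1 := rfl
        rw [this, map_one]
        rfl
      have h2 := left_inv_eq_right_inv (hΨ g i) h1
      rw [← h2]
      rfl
    · rw [REP2_lam_single, REP2_lam_single, star_smul, REP2_P_star]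

end

/-- REP2 -/
theorem t_REP2 : S_REP2 := by
  intro G _ _ _ k d Ψ hΨ x
  classical
  -- the star homomorphism
  let φ : ((i : Fin k) → Matrix (Fin (d i)) (Fin (d i)) ℂ) →⋆ₐ[ℂ] Matrix G G ℂ :=
    { (REP2_lam G).comp (Ψ.symm : ((i : Fin k) → Matrix (Fin (d i)) (Fin (d i)) ℂ) →ₐ[ℂ]
        MonoidAlgebra ℂ G) with
      map_star' := by
        intro y
        obtain ⟨z', h1, h2⟩ := REP2_star Ψ hΨ (Ψ.symm y)
        rw [AlgEquiv.apply_symm_apply] at h1
        have h3 : Ψ.symm (star y) = z' := by rw [← h1, AlgEquiv.symm_apply_apply]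
        change REP2_lam G (Ψ.symm (star y)) = star (REP2_lam G (Ψ.symm y))
        rw [h3, h2] }
  have hφ : ∀ y, ‖REP2_lam G (Ψ.symm y)‖ ≤ ‖y‖ := fun y =>
    NonUnitalStarAlgHom.norm_apply_le φ y
  obtain ⟨z, hz⟩ : ∃ z : MonoidAlgebra ℂ G, z = ∑ g : G, MonoidAlgebra.single g ((x g : ℝ) : ℂ) :=
    ⟨_, rfl⟩
  have hzΨ : ∀ i, Ψ z i = ∑ g : G, ((x g : ℝ) : ℂ) • Ψ (MonoidAlgebra.single g 1) i := by
    intro i
    rw [hz, map_sum, Finset.sum_apply]
    refine sum_congr rfl fun g _ => ?_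
    rw [REP2_single_smul, map_smul, Pi.smul_apply]
  have hzl : REP2_lam G z = ∑ g : G, ((x g : ℝ) : ℂ) • REP2_P g := by
    rw [hz, map_sum]
    exact sum_congr rfl fun g _ => REP2_lam_single g _
  have hbound : ‖REP2_lam G z‖ ≤ ‖Ψ z‖ := by
    have := hφ (Ψ z)
    rwa [AlgEquiv.symm_apply_apply] at this
  -- there is at least one block
  have hk : Nonempty (Fin k) := by
    by_contra hne
    rw [not_nonempty_iff] at hne
    have h1 : Ψ 1 = Ψ 0 := Subsingleton.elim _ _
    have h2 : (1 : MonoidAlgebra ℂ G) = 0 := Ψ.injective h1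
    exact one_ne_zero h2
  obtain ⟨i, hi⟩ := Finite.exists_max (fun i => ‖Ψ z i‖)
  refine ⟨i, fun v => ?_⟩
  rw [← hzΨ i]
  have hnorm : ‖REP2_lam G z‖ ≤ ‖Ψ z i‖ :=
    hbound.trans ((pi_norm_le_iff_of_nonneg (norm_nonneg _)).2 hi)
  -- complexify the vector
  have hmv := Matrix.l2_opNorm_mulVec (REP2_lam G z) (WithLp.toLp 2 fun a => ((v a : ℝ) : ℂ))
  have hent : ∀ a, ((REP2_lam G z) *ᵥ (fun a => ((v a : ℝ) : ℂ))) a =
      (((∑ g : G, x g • Matrix.of
        (fun u w : G => if g * w = u then (1 : ℝ) else 0)).mulVec v a : ℝ) : ℂ) := by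
    intro a
    rw [hzl]
    simp only [Matrix.mulVec, dotProduct, Matrix.sum_apply, Matrix.smul_apply, REP2_P,
      Matrix.of_apply, smul_eq_mul]
    push_cast
    refine sum_congr rfl fun b _ => ?_
    congr 1
    refine sum_congr rfl fun g _ => ?_
    split_ifs <;> simp
  have hv2 : ‖(WithLp.toLp 2 fun a => ((v a : ℝ) : ℂ) : EuclideanSpace ℂ G)‖ ^ 2 =
      ∑ a : G, v a ^ 2 := by
    rw [EuclideanSpace.norm_sq_eq]
    refine sum_congr rfl fun a _ => ?_
    simp
  have hL : ‖(EuclideanSpace.equiv G ℂ).symm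
      ((REP2_lam G z) *ᵥ (fun a => ((v a : ℝ) : ℂ)))‖ ^ 2 =
      ∑ a : G, ((∑ g : G, x g • Matrix.of
        (fun u w : G => if g * w = u then (1 : ℝ) else 0)).mulVec v a) ^ 2 := by
    rw [EuclideanSpace.norm_sq_eq]
    refine sum_congr rfl fun a _ => ?_
    have : ((EuclideanSpace.equiv G ℂ).symm
      ((REP2_lam G z) *ᵥ (fun a => ((v a : ℝ) : ℂ)))) a =
        ((REP2_lam G z) *ᵥ (fun a => ((v a : ℝ) : ℂ))) a := rfl
    rw [this, hent a, Complex.norm_real, Real.norm_eq_abs, sq_abs]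
  rw [← hL, ← hv2, ← mul_pow]
  refine pow_le_pow_left₀ (norm_nonneg _) ?_ 2
  exact hmv.trans (mul_le_mul_of_nonneg_right hnorm (norm_nonneg _))

end Pool.Agent.H172R2.GS
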